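import Pool.Agent.Q37.GraphCurve.KoszulTop

/-!
`b_{n-1,n}` of a graph curve is the number of bridges.
-/

open MvPolynomial Module

namespace Q37.GraphCurve

universe u

variable {K : Type u} [Field K] {N : ℕ}

/-! ### sorting -/

lemma sorted2 (s : Finset (Fin N)) (h : s.card = 2) : ∃ a b, a < b ∧ s = {a, b} := by
  obtain ⟨a, b, hab, rfl⟩ := Finset.card_eq_two.1 h
  rcases lt_or_gt_of_ne hab with h | h
  · exact ⟨a, b, h, rfl⟩
  · exact ⟨b, a, h, Finset.pair_comm _ _⟩

lemma sorted3 (s : Finset (Fin N)) (h : s.card = 3) : ∃ a b c, a < b ∧ b < c ∧ s = {a, b, c} := by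
  let e := s.orderEmbOfFin h
  refine ⟨e 0, e 1, e 2, e.strictMono (by decide), e.strictMono (by decide), ?_⟩
  have h1 : Set.range e = s := Finset.range_orderEmbOfFin s h
  ext x
  rw [← Finset.mem_coe, ← h1]
  simp only [Set.mem_range, Finset.mem_insert, Finset.mem_singleton]
  constructor
  · rintro ⟨i, rfl⟩
    fin_cases i
    · left; rfl
    · right; left; rfl
    · right; right; rfl
  · rintro (h | h | h)
    · exact ⟨0, h.symm⟩
    · exact ⟨1, h.symm⟩
    · exact ⟨2, h.symm⟩

/-! ### the linear form of a functional -/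

/-- linear form of a functional -/
noncomputable def lin (Ψ : Dual K (Fin N → K)) : MvPolynomial (Fin N) K :=
  ∑ i, C (Ψ (Pi.single i 1)) * X i

lemma lin_isHomogeneous (Ψ : Dual K (Fin N → K)) : (lin Ψ).IsHomogeneous 1 := by
  unfold lin
  refine IsHomogeneous.sum _ _ _ fun i _ => ?_
  simpa using (isHomogeneous_C (Fin N) (Ψ (Pi.single i 1))).mul (isHomogeneous_X K i)

lemma eval_lin (Ψ : Dual K (Fin N → K)) (q : Fin N → K) : eval q (lin Ψ) = Ψ q := by
  unfold lin
  rw [map_sum]
  simp only [map_mul, eval_C, eval_X]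
  conv_rhs => rw [LinearMap.pi_apply_eq_sum_univ Ψ q]
  refine Finset.sum_congr rfl fun i _ => ?_
  rw [smul_eq_mul, mul_comm]
  congr 2
  ext j
  simp [Pi.single_apply, eq_comm]

section Rel

variable {V : Type} {L : V → Submodule K (Fin N → K)}

/-- `f` restricted to the line `v` is `q ↦ q ∧ Q v` -/
def Rel (L : V → Submodule K (Fin N → K)) (f : Finset (Fin N) → MvPolynomial (Fin N) K)
    (Q : V → Fin N → K) : Prop :=
  ∀ v, ∀ q ∈ L v, ∀ a b, Am f q a b = q a * Q v b - q b * Q v a

lemma rel_unique (hline : ∀ v, finrank K (L v) = 2)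
    {f : Finset (Fin N) → MvPolynomial (Fin N) K} {Q Q' : V → Fin N → K}
    (h : Rel L f Q) (h' : Rel L f Q') : Q = Q' := by
  funext v
  refine R_unique (L v) (hline v) _ _ fun q hq a b => ?_
  rw [← h v q hq, ← h' v q hq]

lemma rel_exists (hN : 2 ≤ N) (hline : ∀ v, finrank K (L v) = 2)
    {f : Finset (Fin N) → MvPolynomial (Fin N) K}
    (hf : f ∈ cycles (curveIdeal L) (N - 2) (0 + 1)) : ∃ Q, Rel L f Q := by
  have : ∀ v, ∃ R : Fin N → K, ∀ q ∈ L v, ∀ a b, Am f q a b = q a * R b - q b * R a := by
    intro v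
    refine exists_R (L v) (hline v) (Am f) (fun p q a b => Am_add hf.2.1 p q a b)
      (fun c q a b => Am_smul hf.2.1 c q a b) (fun q a b => Am_skew f q a b) ?_
    intro q hq
    exact wedge_of_cycle hN hf v q hq
  choose Q hQ using this
  exact ⟨Q, hQ⟩

/-- the family of vectors of a cycle -/
noncomputable def Qmap (hN : 2 ≤ N) (hline : ∀ v, finrank K (L v) = 2) :
    cycles (curveIdeal L) (N - 2) (0 + 1) →ₗ[K] (V → Fin N → K) where
  toFun f := Classical.choose (rel_exists hN hline f.2)
  map_add' f g := by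
    have h1 := Classical.choose_spec (rel_exists hN hline f.2)
    have h2 := Classical.choose_spec (rel_exists hN hline g.2)
    have h3 := Classical.choose_spec (rel_exists hN hline (f + g).2)
    refine rel_unique hline h3 ?_
    intro v q hq a b
    change Am (f.1 + g.1) q a b = _
    rw [Am_fadd, h1 v q hq, h2 v q hq]
    simp only [Pi.add_apply]
    ring
  map_smul' c f := by
    have h1 := Classical.choose_spec (rel_exists hN hline f.2)
    have h3 := Classical.choose_spec (rel_exists hN hline (c • f).2)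
    refine rel_unique hline h3 ?_
    intro v q hq a b
    change Am (c • f.1) q a b = _
    rw [Am_fsmul, h1 v q hq]
    simp only [Pi.smul_apply, smul_eq_mul, RingHom.id_apply]
    ring

lemma Qmap_spec (hN : 2 ≤ N) (hline : ∀ v, finrank K (L v) = 2)
    (f : cycles (curveIdeal L) (N - 2) (0 + 1)) : Rel L f.1 (Qmap hN hline f) :=
  Classical.choose_spec (rel_exists hN hline f.2)

lemma rel_compat {G : SimpleGraph V} (hmeet : ∀ u v, G.Adj u v → L u ⊓ L v ≠ ⊥)
    {f : Finset (Fin N) → MvPolynomial (Fin N) K} {Q : V → Fin N → K} (h : Rel L f Q) :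
    Compat G L Q := by
  intro x y hxy
  obtain ⟨p, hp, hp0⟩ := Submodule.exists_mem_ne_zero_of_ne_bot (hmeet x y hxy)
  have key : ∀ a b, p a * (Q x - Q y) b = p b * (Q x - Q y) a := by
    intro a b
    have h1 := h x p hp.1 a b
    have h2 := h y p hp.2 a b
    simp only [Pi.sub_apply]
    linear_combination h2 - h1
  obtain ⟨i, hi⟩ : ∃ i, p i ≠ 0 := by
    by_contra hcon
    push Not at hcon
    exact hp0 (funext hcon)
  have : Q x - Q y = ((Q x - Q y) i / p i) • p := by
    ext b
    rw [Pi.smul_apply, smul_eq_mul]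
    field_simp
    have := key i b
    linear_combination this
  rw [this]
  exact Submodule.smul_mem _ _ hp

lemma sq_sign (n : ℕ) : ((-1 : K)) ^ n * (-1) ^ n = 1 := by
  rw [← mul_pow]; simp

lemma hh_eval (f : Finset (Fin N) → MvPolynomial (Fin N) K) (B : Finset (Fin N)) (q : Fin N → K) :
    eval q (hh f B) = (-1) ^ fs B * eval q (f Bᶜ) := by
  unfold hh; simp

lemma card_compl_two {a b : Fin N} (hab : a < b) :
    (({a, b} : Finset (Fin N))ᶜ).card = N - 2 := by
  rw [Finset.card_compl, Fintype.card_fin, Finset.card_pair hab.ne]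

/-- constant families come from boundaries -/
lemma boundary_of_const (hN : 2 ≤ N) {f : Finset (Fin N) → MvPolynomial (Fin N) K}
    (hf : f ∈ cycles (curveIdeal L) (N - 2) (0 + 1)) (R : Fin N → K)
    (h : Rel L f (fun _ => R)) : f ∈ boundaries (curveIdeal L) (N - 2) 0 := by
  classical
  refine ⟨hf.1, hf.2.1, fun T => if T.card = N - 2 + 1 then
    ∑ b ∈ Tᶜ, (-1) ^ (b : ℕ) * C (R b) else 0, ?_, ?_, ?_⟩
  · intro T hT
    exact if_neg hT
  · intro T
    dsimp only
    split_ifs
    · refine IsHomogeneous.sum _ _ _ fun b _ => ?_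
      have h1 : ((-1 : MvPolynomial (Fin N) K) ^ (b : ℕ)).IsHomogeneous 0 := by
        have : ((-1 : MvPolynomial (Fin N) K)).IsHomogeneous 0 := by
          have := isHomogeneous_C (Fin N) (-1 : K)
          simpa using this
        simpa using this.pow (b : ℕ)
      simpa using h1.mul (isHomogeneous_C (Fin N) (R b))
    · exact isHomogeneous_zero _ _ _
  · intro T hT v x hx
    set g : Finset (Fin N) → MvPolynomial (Fin N) K := fun T => if T.card = N - 2 + 1 then
      ∑ b ∈ Tᶜ, (-1) ^ (b : ℕ) * C (R b) else 0 with hg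
    obtain ⟨a, b, hab, hTc⟩ := sorted2 Tᶜ (by
      rw [Finset.card_compl, Fintype.card_fin, hT]; omega)
    have hTT : T = ({a, b} : Finset (Fin N))ᶜ := by rw [← hTc, compl_compl]
    have hgh : ∀ c : Fin N, eval x (hh g {c}) = R c := by
      intro c
      rw [hh_eval, hg]
      dsimp only
      rw [if_pos (by
        rw [Finset.card_compl, Fintype.card_fin, Finset.card_singleton]; omega), compl_compl,
        Finset.sum_singleton]
      simp only [fs, Finset.sum_singleton, map_mul, map_pow, map_neg, map_one, eval_C]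
      rw [← mul_assoc, sq_sign, one_mul]
    have e1 := congrArg (eval x) (koszulD_two g hab)
    simp only [map_mul, map_sub, eval_X, hgh, map_pow, map_neg, map_one] at e1
    have e2 := h v x hx a b
    rw [Am_lt f x hab, hh_eval] at e2
    rw [map_sub, hTT]
    have e3 := sq_sign (K := K) (fs {a, b})
    have e4 : (-1 : K) ^ fs {a, b} * eval x (f ({a, b} : Finset (Fin N))ᶜ) =
        (-1 : K) ^ fs {a, b} * eval x (koszulD g ({a, b} : Finset (Fin N))ᶜ) := by
      rw [e1, e2]
    have e5 : (-1 : K) ^ fs {a, b} ≠ 0 := pow_ne_zero _ (by simp)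
    rw [mul_left_cancel₀ e5 e4, sub_self]

/-- boundaries give constant families -/
lemma const_of_boundary (hN : 2 ≤ N) {f : Finset (Fin N) → MvPolynomial (Fin N) K}
    (hf : f ∈ boundaries (curveIdeal L) (N - 2) 0) : ∃ R, Rel L f (fun _ => R) := by
  obtain ⟨-, -, g, -, hg, hI⟩ := hf
  have hconst : ∀ (B : Finset (Fin N)) (x : Fin N → K), eval x (hh g B) = eval 0 (hh g B) := by
    intro B x
    have h1 := hh_isHomogeneous hg B
    have h2 : (hh g B).totalDegree = 0 := Nat.le_zero.1 h1.totalDegree_le
    rw [totalDegree_eq_zero_iff_eq_C] at h2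
    rw [h2]; simp
  refine ⟨fun b => eval 0 (hh g {b}), ?_⟩
  intro v x hx
  have sorted : ∀ a b, a < b → Am f x a b = x a * eval 0 (hh g {b}) - x b * eval 0 (hh g {a}) := by
    intro a b hab
    have e1 := congrArg (eval x) (koszulD_two g hab)
    simp only [map_mul, map_sub, eval_X, hconst _ x, map_pow, map_neg, map_one] at e1
    have e2 := hI _ (card_compl_two hab) v x hx
    rw [map_sub, sub_eq_zero] at e2
    rw [Am_lt f x hab, hh_eval, e2, e1]
  intro a b
  dsimp only
  rcases lt_trichotomy a b with h | h | h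
  · exact sorted a b h
  · subst h; rw [Am_self]; ring
  · rw [Am_skew, sorted b a h]; ring

end Rel

section Main

variable {V : Type} [Fintype V] [DecidableEq V] {G : SimpleGraph V} [DecidableRel G.Adj]
  {L : V → Submodule K (Fin N → K)}

lemma pair_finrank_le (hline : ∀ v, finrank K (L v) = 2) (hinj : Function.Injective L) {x y : V}
    (hxy : x ≠ y) : finrank K (L x ⊓ L y : Submodule K (Fin N → K)) ≤ 1 := by
  by_contra hcon
  have h1 : L x ⊓ L y = L x := by
    refine Submodule.eq_of_le_of_finrank_le inf_le_left ?_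
    rw [hline x]; omega
  have h2 : L x ⊓ L y = L y := by
    refine Submodule.eq_of_le_of_finrank_le inf_le_right ?_
    rw [hline y]; omega
  exact hxy (hinj (h1.symm.trans h2))

/-- compatible families come from cycles -/
lemma cycle_of_compat (hN : 2 ≤ N) (hC : Config G L) (hinj : Function.Injective L)
    (hgood : Good G L Finset.univ) {Q : V → Fin N → K} (hQ : Compat G L Q) :
    ∃ f ∈ cycles (curveIdeal L) (N - 2) (0 + 1), Rel L f Q := by
  classical
  -- the functionals
  have hdesc : ∀ p : Fin N × Fin N, ∃ Ψ : Dual K (Fin N → K), ∀ v, ∀ q ∈ L v,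
      Ψ q = q p.1 * Q v p.2 - q p.2 * Q v p.1 := by
    rintro ⟨a, b⟩
    obtain ⟨Ψ, hΨ⟩ := descent hC (Finset.univ : Finset V).card Finset.univ rfl hgood
      (fun v => (Q v b) • (LinearMap.proj a : (Fin N → K) →ₗ[K] K) -
        (Q v a) • (LinearMap.proj b : (Fin N → K) →ₗ[K] K)) (by
        intro x _ y _ hxy p hp
        have hd := hQ x y hxy
        have hle := pair_finrank_le hC.line hinj hxy.ne
        have hge := finrank_pos_of_ne_bot (hC.meet x y hxy)
        have hone : finrank K (L x ⊓ L y : Submodule K (Fin N → K)) = 1 := le_antisymm hle hge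
        obtain ⟨w, hw0, hw⟩ := finrank_eq_one_iff'.1 hone
        obtain ⟨c, hc⟩ := hw ⟨p, hp⟩
        obtain ⟨e, he⟩ := hw ⟨Q x - Q y, hd⟩
        have hc' : ∀ i, p i = c * w.1 i := fun i => by
          have := congrFun (congrArg Subtype.val hc) i
          simpa using this.symm
        have he' : ∀ i, Q x i - Q y i = e * w.1 i := fun i => by
          have := congrFun (congrArg Subtype.val he) i
          simpa using this.symm
        simp only [LinearMap.sub_apply, LinearMap.smul_apply, LinearMap.proj_apply, smul_eq_mul]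
        rw [hc' a, hc' b]
        linear_combination c * w.1 a * he' b - c * w.1 b * he' a)
    refine ⟨Ψ, fun v q hq => ?_⟩
    rw [hΨ v (Finset.mem_univ v) q hq]
    simp only [LinearMap.sub_apply, LinearMap.smul_apply, LinearMap.proj_apply, smul_eq_mul]
    ring
  choose Ψ hΨ using hdesc
  set f : Finset (Fin N) → MvPolynomial (Fin N) K := fun T => if T.card = N - 2 then
    (-1) ^ fs Tᶜ * ∑ p ∈ (Tᶜ ×ˢ Tᶜ).filter (fun p => p.1 < p.2), lin (Ψ p) else 0 with hf
  have hfh : ∀ T, (f T).IsHomogeneous 1 := by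
    intro T
    rw [hf]
    dsimp only
    split_ifs
    · have h1 : ((-1 : MvPolynomial (Fin N) K) ^ fs Tᶜ).IsHomogeneous 0 := by
        have : ((-1 : MvPolynomial (Fin N) K)).IsHomogeneous 0 := by
          have := isHomogeneous_C (Fin N) (-1 : K)
          simpa using this
        simpa using this.pow (fs Tᶜ)
      have h2 := IsHomogeneous.sum ((Tᶜ ×ˢ Tᶜ).filter (fun p => p.1 < p.2)) (fun p => lin (Ψ p)) 1
        (fun p _ => lin_isHomogeneous (Ψ p))
      simpa using h1.mul h2
    · exact isHomogeneous_zero _ _ _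
  have hAm : ∀ q a b, a < b → Am f q a b = Ψ (a, b) q := by
    intro q a b hab
    rw [Am_lt f q hab, hh_eval, hf]
    dsimp only
    rw [if_pos (card_compl_two hab), compl_compl]
    have hfil : (({a, b} : Finset (Fin N)) ×ˢ ({a, b} : Finset (Fin N))).filter
        (fun p => p.1 < p.2) = {(a, b)} := by
      ext ⟨c, d⟩
      simp only [Finset.mem_filter, Finset.mem_product, Finset.mem_insert, Finset.mem_singleton,
        Prod.mk.injEq]
      constructor
      · rintro ⟨⟨rfl | rfl, rfl | rfl⟩, h⟩
        · exact absurd h (lt_irrefl _)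
        · exact ⟨rfl, rfl⟩
        · exact absurd h (not_lt.2 hab.le)
        · exact absurd h (lt_irrefl _)
      · rintro ⟨rfl, rfl⟩
        exact ⟨⟨Or.inl rfl, Or.inr rfl⟩, hab⟩
    rw [hfil, Finset.sum_singleton, map_mul, eval_lin]
    simp only [map_pow, map_neg, map_one]
    rw [← mul_assoc, sq_sign, one_mul]
  have hRel : Rel L f Q := by
    intro v q hq a b
    rcases lt_trichotomy a b with h | h | h
    · rw [hAm q a b h, hΨ (a, b) v q hq]
    · subst h; rw [Am_self]; ring
    · rw [Am_skew, hAm q b a h, hΨ (b, a) v q hq]; ring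
  refine ⟨f, ⟨fun T hT => if_neg hT, hfh, ?_⟩, hRel⟩
  intro T hT v x hx
  obtain ⟨a, b, c, hab, hbc, hTc⟩ := sorted3 Tᶜ (by
    rw [Finset.card_compl, Fintype.card_fin]; omega)
  have hTT : T = ({a, b, c} : Finset (Fin N))ᶜ := by rw [← hTc, compl_compl]
  have e1 := congrArg (eval x) (koszulD_three f hab hbc)
  simp only [map_mul, map_sub, map_add, eval_X, map_pow, map_neg, map_one] at e1
  rw [← Am_lt f x hbc, ← Am_lt f x (hab.trans hbc), ← Am_lt f x hab, hRel v x hx, hRel v x hx,
    hRel v x hx] at e1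
  have e5 : (-1 : K) ^ fs {a, b, c} ≠ 0 := pow_ne_zero _ (by simp)
  have e2 : (-1 : K) ^ fs {a, b, c} * eval x (koszulD f ({a, b, c} : Finset (Fin N))ᶜ) = 0 := by
    rw [e1]; ring
  rw [hTT]
  exact (mul_eq_zero.1 e2).resolve_left e5

/-- the main theorem in terms of a configuration -/
theorem betti_eq (hN : 2 ≤ N) (hG : G.Connected) (hC : Config G L) (hinj : Function.Injective L)
    (hgood : Good G L Finset.univ) :
    betti (curveIdeal L) (N - 2) 0 =
      {e | e ∈ G.edgeSet ∧ ¬ (G.deleteEdges {e}).Connected}.ncard := by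
  classical
  set B := {e | e ∈ G.edgeSet ∧ ¬ (G.deleteEdges {e}).Connected} with hB
  -- data for each bridge
  have hdata : ∀ e : B, ∃ (x y : V) (p : Fin N → K) (ξ : (Fin N → K) →ₗ[K] K) (A A' : Finset V),
      e.1 = s(x, y) ∧ G.Adj x y ∧ p ∈ L x ⊓ L y ∧ ξ p = 1 ∧ Cut Finset.univ A A' ∧ x ∈ A ∧
        y ∈ A' ∧ ∀ a ∈ A, ∀ b ∈ A', G.Adj a b → a = x ∧ b = y := by
    rintro ⟨e, he1, he2⟩
    induction e with
    | _ x y =>
    rw [SimpleGraph.mem_edgeSet] at he1
    obtain ⟨A, A', h1, h2, h3, h4⟩ := cut_of_not_connected hG he1 he2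
    obtain ⟨p, hp, hp0⟩ := Submodule.exists_mem_ne_zero_of_ne_bot (hC.meet x y he1)
    obtain ⟨ξ, hξ⟩ : ∃ ξ : (Fin N → K) →ₗ[K] K, ξ p = 1 := by
      obtain ⟨i, hi⟩ : ∃ i, p i ≠ 0 := by
        by_contra hcon
        push Not at hcon
        exact hp0 (funext hcon)
      refine ⟨(p i)⁻¹ • (LinearMap.proj i : (Fin N → K) →ₗ[K] K), ?_⟩
      rw [LinearMap.smul_apply, LinearMap.proj_apply, smul_eq_mul, inv_mul_cancel₀ hi]
    exact ⟨x, y, p, ξ, A, A', rfl, he1, hp, hξ, h1, h2, h3, h4⟩
  choose x y p ξ A A' hxy hadj hp hξ hcut hxA hyA hone using hdata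
  let Λ : cycles (curveIdeal L) (N - 2) (0 + 1) →ₗ[K] (B → K) :=
    LinearMap.pi (fun e => (ξ e) ∘ₗ ((LinearMap.proj (x e) : (V → Fin N → K) →ₗ[K] (Fin N → K)) -
      LinearMap.proj (y e)) ∘ₗ Qmap hN hC.line)
  have hΛ : ∀ f e, Λ f e = ξ e (Qmap hN hC.line f (x e) - Qmap hN hC.line f (y e)) :=
    fun f e => rfl
  -- crossing edges of the cut of `e`
  have cross : ∀ (e : B) (u v : V), G.Adj u v → u ∈ A e → v ∉ A e → e.1 = s(u, v) := by
    intro e u v huv hu hv
    have hv' : v ∈ A' e := ((hcut e).mem (Finset.mem_univ v)).resolve_left hv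
    obtain ⟨h1, h2⟩ := hone e u hu v hv' huv
    rw [hxy e, h1, h2]
  -- surjectivity
  have hsurj : Function.Surjective Λ := by
    intro lam
    set Q : V → Fin N → K := fun v => ∑ e : B, if v ∈ A e then lam e • p e else 0 with hQ
    have hdiff : ∀ u v, G.Adj u v → ∀ e : B, e.1 ≠ s(u, v) →
        (if u ∈ A e then lam e • p e else 0) = (if v ∈ A e then lam e • p e else 0) := by
      intro u v huv e hne
      by_cases h1 : u ∈ A e <;> by_cases h2 : v ∈ A e
      · rw [if_pos h1, if_pos h2]
      · exact absurd (cross e u v huv h1 h2) hne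
      · refine absurd (cross e v u huv.symm h2 h1) ?_
        rw [Sym2.eq_swap]; exact hne
      · rw [if_neg h1, if_neg h2]
    have hcomp : Compat G L Q := by
      intro u v huv
      rw [hQ]
      dsimp only
      rw [← Finset.sum_sub_distrib]
      refine Submodule.sum_mem _ fun e _ => ?_
      by_cases hne : e.1 = s(u, v)
      · have hmem : p e ∈ L u ⊓ L v := by
          have h1 := hxy e
          rw [hne, Sym2.eq_iff] at h1
          rcases h1 with ⟨h1, h2⟩ | ⟨h1, h2⟩
          · rw [h1, h2]; exact hp e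
          · rw [h1, h2, inf_comm]; exact hp e
        have h3 : ∀ w, (if w ∈ A e then lam e • p e else 0) ∈ L u ⊓ L v := by
          intro w
          split_ifs
          · exact Submodule.smul_mem _ _ hmem
          · exact Submodule.zero_mem _
        exact Submodule.sub_mem _ (h3 u) (h3 v)
      · rw [hdiff u v huv e hne, sub_self]
        exact Submodule.zero_mem _
    obtain ⟨f, hf, hrel⟩ := cycle_of_compat hN hC hinj hgood hcomp
    refine ⟨⟨f, hf⟩, ?_⟩
    have hQf : Qmap hN hC.line ⟨f, hf⟩ = Q := rel_unique hC.line (Qmap_spec hN hC.line ⟨f, hf⟩) hrel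
    funext e
    rw [hΛ, hQf, hQ]
    dsimp only
    rw [← Finset.sum_sub_distrib, Finset.sum_eq_single e]
    · rw [if_pos (hxA e), if_neg ((hcut e).symm.not_mem (hyA e)), sub_zero, map_smul, hξ,
        smul_eq_mul, mul_one]
    · intro e' _ hne
      rw [hdiff (x e) (y e) (hadj e) e' (fun h => hne (Subtype.ext (by rw [h, ← hxy e]))), sub_self]
    · intro h; exact absurd (Finset.mem_univ e) h
  -- the kernel
  have hker : LinearMap.ker Λ =
      (boundaries (curveIdeal L) (N - 2) 0).comap (cycles (curveIdeal L) (N - 2) (0 + 1)).subtype := by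
    ext f
    rw [LinearMap.mem_ker, Submodule.mem_comap, Submodule.subtype_apply]
    have hspec := Qmap_spec hN hC.line f
    have hcomp : Compat G L (Qmap hN hC.line f) := rel_compat hC.meet hspec
    constructor
    · intro h0
      -- constant across all edges
      have hloc : ∀ u ∈ (Finset.univ : Finset V), ∀ v ∈ (Finset.univ : Finset V), G.Adj u v →
          Qmap hN hC.line f u = Qmap hN hC.line f v := by
        intro u _ v _ huv
        rcases main_claim hC hcomp _ Finset.univ rfl hgood u (Finset.mem_univ u) v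
          (Finset.mem_univ v) huv with h | h
        · exact h
        · have hmem : s(u, v) ∈ B := ⟨huv, not_connected_of_bridge huv h⟩
          have h1 := congrFun h0 ⟨s(u, v), hmem⟩
          rw [hΛ, Pi.zero_apply] at h1
          set e : B := ⟨s(u, v), hmem⟩ with he
          have hd := hcomp (x e) (y e) (hadj e)
          have hle := pair_finrank_le hC.line hinj (hadj e).ne
          have hge := finrank_pos_of_ne_bot (hC.meet (x e) (y e) (hadj e))
          have hone' : finrank K (L (x e) ⊓ L (y e) : Submodule K (Fin N → K)) = 1 :=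
            le_antisymm hle hge
          have hpne : (⟨p e, hp e⟩ : (L (x e) ⊓ L (y e) : Submodule K (Fin N → K))) ≠ 0 := by
            intro h
            have : p e = 0 := congrArg Subtype.val h
            have h2 := hξ e
            rw [this, map_zero] at h2
            exact zero_ne_one h2
          obtain ⟨c, hc⟩ := (finrank_eq_one_iff_of_nonzero' _ hpne).1 hone' ⟨_, hd⟩
          have hc' : c • p e = Qmap hN hC.line f (x e) - Qmap hN hC.line f (y e) :=
            congrArg Subtype.val hc
          rw [← hc', map_smul, hξ, smul_eq_mul, mul_one] at h1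
          rw [h1, zero_smul] at hc'
          have heq : Qmap hN hC.line f (x e) = Qmap hN hC.line f (y e) := (sub_eq_zero.1 hc'.symm)
          have h3 := hxy e
          have h4 : s(u, v) = s(x e, y e) := h3
          rw [Sym2.eq_iff] at h4
          rcases h4 with ⟨h4, h5⟩ | ⟨h4, h5⟩
          · rw [h4, h5]; exact heq
          · rw [h4, h5]; exact heq.symm
      obtain ⟨v0⟩ := hG.nonempty
      have hconn : ∀ A B, Cut (Finset.univ : Finset V) A B → 1 ≤ ed G A B := by
        intro A B hc
        obtain ⟨a, ha⟩ := hc.ne1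
        obtain ⟨b, hb⟩ := hc.ne2
        obtain ⟨w⟩ := hG.preconnected a b
        obtain ⟨d, hd, h1, h2⟩ := w.exists_boundary_dart (A : Set V) ha (hc.symm.not_mem hb)
        have hB' : d.snd ∈ B := (hc.mem (Finset.mem_univ _)).resolve_left h2
        exact ed_pos G h1 hB' d.adj
      have hconst := const_of (Q := Qmap hN hC.line f) hconn (Finset.mem_univ v0) hloc
      refine boundary_of_const hN f.2 (Qmap hN hC.line f v0) ?_
      intro v q hq a b
      rw [hspec v q hq, hconst v (Finset.mem_univ v)]
    · intro hf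
      obtain ⟨R, hR⟩ := const_of_boundary hN hf
      have := rel_unique hC.line hspec hR
      funext e
      rw [hΛ, this]
      simp
  unfold betti
  rw [← hker, (Λ.quotKerEquivOfSurjective hsurj).finrank_eq, Module.finrank_fintype_fun_eq_card,
    ← Nat.card_eq_fintype_card]
  rfl

end Main

end Q37.GraphCurve
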