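import Pool.Agent.Q37.GraphCurve.Span

/-!
Bridges and cuts; sparse graphs are 2-degenerate; counting edges.
-/

namespace Q37.GraphCurve

universe u

open Module

section

variable {V : Type} [Fintype V] [DecidableEq V] (G : SimpleGraph V) [DecidableRel G.Adj]

/-- The graph `G[T]` on the vertex set `V`. -/
def restr (T : Finset V) : SimpleGraph V where
  Adj a b := G.Adj a b ∧ a ∈ T ∧ b ∈ T
  symm := ⟨fun _ _ h => ⟨h.1.symm, h.2.2, h.2.1⟩⟩
  loopless := ⟨fun _ h => G.irrefl h.1⟩

instance (T : Finset V) : DecidableRel (restr G T).Adj :=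
  fun a b => inferInstanceAs (Decidable (G.Adj a b ∧ a ∈ T ∧ b ∈ T))

omit [Fintype V] [DecidableEq V] in
lemma ed_eq_sum (A B : Finset V) :
    ed G A B = ∑ a ∈ A, ∑ b ∈ B, (if G.Adj a b then 1 else 0) := by
  unfold ed
  rw [Finset.card_filter, Finset.sum_product]

lemma two_mul_edges (T : Finset V) : 2 * (restr G T).edgeSet.ncard = ed G T T := by
  classical
  have h1 := (restr G T).sum_degrees_eq_twice_card_edges
  rw [Set.ncard_eq_toFinset_card', SimpleGraph.edgeFinset] at *
  rw [← h1]
  unfold ed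
  rw [Finset.card_filter, Finset.sum_product]
  have h2 : ∀ v, (restr G T).degree v = if v ∈ T then (∑ y ∈ T, if G.Adj v y then 1 else 0) else 0 := by
    intro v
    rw [← Finset.card_filter, ← SimpleGraph.card_neighborFinset_eq_degree]
    split_ifs with hv
    · congr 1
      ext y
      rw [SimpleGraph.mem_neighborFinset, Finset.mem_filter]
      constructor
      · rintro ⟨a, b, c⟩; exact ⟨c, a⟩
      · rintro ⟨a, b⟩; exact ⟨b, hv, a⟩
    · rw [Finset.card_eq_zero, Finset.eq_empty_iff_forall_notMem]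
      intro y hy
      rw [SimpleGraph.mem_neighborFinset] at hy
      exact hv hy.2.1
  simp only [h2]
  rw [← Finset.sum_filter]
  refine Finset.sum_congr ?_ fun _ _ => rfl
  ext v; simp

lemma restr_univ : restr G Finset.univ = G := by
  ext a b
  constructor
  · exact fun h => h.1
  · exact fun h => ⟨h, Finset.mem_univ _, Finset.mem_univ _⟩

lemma edgeSet_induce (T : Finset V) :
    ((⊤ : G.Subgraph).induce (T : Set V)).edgeSet = (restr G T).edgeSet := by
  ext e
  induction e with
  | _ a b =>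
  rw [SimpleGraph.Subgraph.mem_edgeSet, SimpleGraph.mem_edgeSet]
  constructor
  · rintro ⟨h1, h2, h3⟩
    exact ⟨h3, h1, h2⟩
  · rintro ⟨h1, h2, h3⟩
    exact ⟨h2, h3, h1⟩

variable {G}

/-- sparse graphs are 2-degenerate -/
lemma degen_of_sparse (hS : IsSparse G) (S : Finset V) (hne : S.Nonempty) :
    ∃ v ∈ S, ed G {v} S ≤ 2 := by
  classical
  by_contra hcon
  push_neg at hcon
  obtain ⟨x, hx⟩ := hne
  set T : Finset V := Finset.univ.filter (fun z => (restr G S).Reachable x z) with hT
  have hTmem : ∀ z, z ∈ T ↔ (restr G S).Reachable x z := fun z => by simp [hT]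
  have hxT : x ∈ T := (hTmem x).2 (SimpleGraph.Reachable.refl _)
  have hTS : T ⊆ S := by
    intro z hz
    rw [hTmem, SimpleGraph.reachable_iff_reflTransGen] at hz
    rcases Relation.ReflTransGen.cases_tail hz with h | ⟨y, _, h⟩
    · rw [h]; exact hx
    · exact h.2.2
  have hstep : ∀ y ∈ T, ∀ z ∈ S, G.Adj y z → z ∈ T := by
    intro y hy z hz hyz
    rw [hTmem] at hy ⊢
    exact hy.trans (SimpleGraph.Adj.reachable ⟨hyz, hTS ((hTmem y).2 hy), hz⟩)
  set H : G.Subgraph := (⊤ : G.Subgraph).induce (T : Set V) with hH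
  have hconn : H.Connected := by
    rw [SimpleGraph.Subgraph.connected_iff']
    rw [SimpleGraph.connected_iff_exists_forall_reachable]
    refine ⟨⟨x, hxT⟩, ?_⟩
    rintro ⟨z, hz⟩
    have hz' : z ∈ T := hz
    have key : ∀ z, Relation.ReflTransGen (restr G S).Adj x z → ∀ hz : z ∈ H.verts,
        H.coe.Reachable ⟨x, hxT⟩ ⟨z, hz⟩ := by
      intro z h
      induction h with
      | refl => intro _; exact SimpleGraph.Reachable.refl _
      | @tail b c hb hbc ih =>
        intro hc
        have hbT : b ∈ T := by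
          rw [hTmem, SimpleGraph.reachable_iff_reflTransGen]; exact hb
        refine (ih hbT).trans (SimpleGraph.Adj.reachable ?_)
        exact ⟨hbT, hc, hbc.1⟩
    refine key z ?_ hz
    rw [hTmem, SimpleGraph.reachable_iff_reflTransGen] at hz'
    exact hz'
  have h1 := hS H hconn
  have h2 : H.verts.ncard = T.card := by
    have : H.verts = (T : Set V) := rfl
    rw [this, Set.ncard_coe_finset]
  have h3 : 2 * H.edgeSet.ncard = ed G T T := by
    rw [hH, edgeSet_induce, two_mul_edges]
  have h4 : 3 * T.card ≤ ed G T T := by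
    rw [ed_eq_sum]
    have : ∀ v ∈ T, 3 ≤ ∑ y ∈ T, (if G.Adj v y then 1 else 0) := by
      intro v hv
      have h5 := hcon v (hTS hv)
      have h6 : ed G {v} S = ∑ y ∈ T, (if G.Adj v y then 1 else 0) := by
        rw [ed_eq_sum, Finset.sum_singleton]
        symm
        apply Finset.sum_subset hTS
        intro y hy hyT
        rw [if_neg]
        intro hadj
        exact hyT (hstep v hv y hy hadj)
      omega
    calc 3 * T.card = ∑ _v ∈ T, 3 := by rw [Finset.sum_const, smul_eq_mul, mul_comm]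
      _ ≤ _ := Finset.sum_le_sum this
  rw [h2] at h1
  omega

/-- a one-edge cut gives a bridge -/
lemma not_connected_of_bridge {x y : V} (hxy : G.Adj x y) (h : BridgeIn G Finset.univ x y) :
    ¬ (G.deleteEdges {s(x, y)}).Connected := by
  intro hc
  obtain ⟨A, B, hcut, hx, hy, hone⟩ := h
  obtain ⟨w⟩ := hc.preconnected x y
  obtain ⟨d, hd, h1, h2⟩ := w.exists_boundary_dart (A : Set V) hx (hcut.symm.not_mem hy)
  have hadj := d.adj
  rw [SimpleGraph.deleteEdges_adj] at hadj
  have hB : d.snd ∈ B := (hcut.mem (Finset.mem_univ _)).resolve_left h2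
  have : 1 < ((A ×ˢ B).filter (fun p => G.Adj p.1 p.2)).card := by
    rw [Finset.one_lt_card]
    refine ⟨(x, y), by simp [hx, hy, hxy], (d.fst, d.snd), ?_, ?_⟩
    · rw [Finset.mem_filter, Finset.mem_product]
      exact ⟨⟨h1, hB⟩, hadj.1⟩
    · intro heq
      apply hadj.2
      rw [Prod.mk.injEq] at heq
      rw [Set.mem_singleton_iff, ← heq.1, ← heq.2]
  unfold ed at hone
  omega

/-- a bridge gives a one-edge cut -/
lemma cut_of_not_connected (hG : G.Connected) {x y : V} (hxy : G.Adj x y)
    (h : ¬ (G.deleteEdges {s(x, y)}).Connected) :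
    ∃ A B, Cut Finset.univ A B ∧ x ∈ A ∧ y ∈ B ∧
      ∀ a ∈ A, ∀ b ∈ B, G.Adj a b → a = x ∧ b = y := by
  classical
  set G' := G.deleteEdges {s(x, y)} with hG'
  set A : Finset V := Finset.univ.filter (fun z => G'.Reachable x z) with hA
  set B : Finset V := Finset.univ.filter (fun z => ¬ G'.Reachable x z) with hB
  have hxA : x ∈ A := by simp [hA]
  have hBne : B.Nonempty := by
    by_contra hcon
    apply h
    rw [SimpleGraph.connected_iff_exists_forall_reachable]
    refine ⟨x, fun w => ?_⟩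
    by_contra hw
    apply hcon
    exact ⟨w, by simp [hB, hw]⟩
  have hcut : Cut Finset.univ A B := ⟨Finset.filter_union_filter_not_eq _ _,
    Finset.disjoint_filter_filter_not _ _ _, ⟨x, hxA⟩, hBne⟩
  have hcross : ∀ a ∈ A, ∀ b ∈ B, G.Adj a b → s(a, b) = s(x, y) := by
    intro a ha b hb hab
    by_contra hne
    rw [hA, Finset.mem_filter] at ha
    rw [hB, Finset.mem_filter] at hb
    apply hb.2
    refine ha.2.trans (SimpleGraph.Adj.reachable ?_)
    rw [hG', SimpleGraph.deleteEdges_adj]
    exact ⟨hab, hne⟩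
  have hyB : y ∈ B := by
    obtain ⟨z, hz⟩ := hBne
    obtain ⟨w⟩ := hG.preconnected x z
    obtain ⟨d, hd, h1, h2⟩ := w.exists_boundary_dart (A : Set V) hxA (hcut.symm.not_mem hz)
    have hdB : d.snd ∈ B := (hcut.mem (Finset.mem_univ _)).resolve_left h2
    have h3 := hcross d.fst h1 d.snd hdB d.adj
    rw [Sym2.eq_iff] at h3
    rcases h3 with ⟨_, h4⟩ | ⟨_, h4⟩
    · rw [← h4]; exact hdB
    · rw [h4] at hdB; exact absurd hdB (hcut.not_mem hxA)
  refine ⟨A, B, hcut, hxA, hyB, ?_⟩
  intro a ha b hb hab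
  have h3 := hcross a ha b hb hab
  rw [Sym2.eq_iff] at h3
  rcases h3 with h3 | ⟨h4, _⟩
  · exact h3
  · rw [h4] at ha; exact absurd hyB (hcut.not_mem ha)

end

end Q37.GraphCurve
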