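import Mathlib

/-!
Graph curves and graded Betti numbers (via Koszul homology): definitions.
-/

open MvPolynomial

namespace Q37.GraphCurve

universe u

/-! ### Graded Betti numbers -/

section Koszul

variable {K : Type u} [Field K] {N : ℕ}

/-- The Koszul differential of the variables `X 0, …, X (N-1)`; the chain `f` stands for
`∑ f T e_T`, and `d(f)_T = ∑_{t ∉ T} (-1)^{#{l ∈ T : l < t}} X_t f_{T ∪ {t}}`. -/
noncomputable def koszulD (f : Finset (Fin N) → MvPolynomial (Fin N) K) (T : Finset (Fin N)) :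
    MvPolynomial (Fin N) K :=
  ∑ t ∈ Finset.univ \ T,
    (-1 : MvPolynomial (Fin N) K) ^ (T.filter (· < t)).card * X t * f (insert t T)

lemma koszulD_add (f g : Finset (Fin N) → MvPolynomial (Fin N) K) (T : Finset (Fin N)) :
    koszulD (f + g) T = koszulD f T + koszulD g T := by
  simp only [koszulD, Pi.add_apply, mul_add, Finset.sum_add_distrib]

lemma koszulD_smul (c : K) (f : Finset (Fin N) → MvPolynomial (Fin N) K) (T : Finset (Fin N)) :
    koszulD (c • f) T = c • koszulD f T := by
  simp only [koszulD, Pi.smul_apply, Finset.smul_sum, mul_smul_comm]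

lemma koszulD_zero (T : Finset (Fin N)) :
    koszulD (0 : Finset (Fin N) → MvPolynomial (Fin N) K) T = 0 := by
  simp [koszulD]

/-- The Koszul `i`-cycles of `S/I` (`S` the polynomial ring) with coefficients represented by
forms of degree `e`; internal degree `i + e`. -/
noncomputable def cycles (I : Ideal (MvPolynomial (Fin N) K)) (i e : ℕ) :
    Submodule K (Finset (Fin N) → MvPolynomial (Fin N) K) where
  carrier := {f | (∀ T, T.card ≠ i → f T = 0) ∧ (∀ T, (f T).IsHomogeneous e) ∧
    ∀ T : Finset (Fin N), T.card + 1 = i → koszulD f T ∈ I}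
  zero_mem' := ⟨fun _ _ => rfl, fun _ => isHomogeneous_zero _ _ _, fun T _ => by
    rw [koszulD_zero]; exact I.zero_mem⟩
  add_mem' := by
    rintro f g ⟨h1, h2, h3⟩ ⟨h1', h2', h3'⟩
    refine ⟨fun T hT => ?_, fun T => (h2 T).add (h2' T), fun T hT => ?_⟩
    · rw [Pi.add_apply, h1 T hT, h1' T hT, add_zero]
    · rw [koszulD_add]; exact I.add_mem (h3 T hT) (h3' T hT)
  smul_mem' := by
    rintro c f ⟨h1, h2, h3⟩
    refine ⟨fun T hT => ?_, fun T => ?_, fun T hT => ?_⟩
    · rw [Pi.smul_apply, h1 T hT, smul_zero]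
    · exact (homogeneousSubmodule (Fin N) K e).smul_mem c (h2 T)
    · rw [koszulD_smul, smul_eq_C_mul]; exact I.mul_mem_left _ (h3 T hT)

/-- The Koszul `i`-chains of `S/I` with coefficients represented by forms of degree `e + 1` which
are boundaries of `(i+1)`-chains with coefficients forms of degree `e`. -/
noncomputable def boundaries (I : Ideal (MvPolynomial (Fin N) K)) (i e : ℕ) :
    Submodule K (Finset (Fin N) → MvPolynomial (Fin N) K) where
  carrier := {f | (∀ T, T.card ≠ i → f T = 0) ∧ (∀ T, (f T).IsHomogeneous (e + 1)) ∧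
    ∃ g : Finset (Fin N) → MvPolynomial (Fin N) K, (∀ T, T.card ≠ i + 1 → g T = 0) ∧
      (∀ T, (g T).IsHomogeneous e) ∧
      ∀ T : Finset (Fin N), T.card = i → f T - koszulD g T ∈ I}
  zero_mem' := ⟨fun _ _ => rfl, fun _ => isHomogeneous_zero _ _ _, 0, fun _ _ => rfl,
    fun _ => isHomogeneous_zero _ _ _, fun T _ => by
    rw [koszulD_zero]; simp⟩
  add_mem' := by
    rintro f f' ⟨h1, h2, g, h3, h4, h5⟩ ⟨h1', h2', g', h3', h4', h5'⟩
    refine ⟨fun T hT => ?_, fun T => (h2 T).add (h2' T), g + g', fun T hT => ?_,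
      fun T => (h4 T).add (h4' T), fun T hT => ?_⟩
    · rw [Pi.add_apply, h1 T hT, h1' T hT, add_zero]
    · rw [Pi.add_apply, h3 T hT, h3' T hT, add_zero]
    · rw [koszulD_add, Pi.add_apply, add_sub_add_comm]; exact I.add_mem (h5 T hT) (h5' T hT)
  smul_mem' := by
    rintro c f ⟨h1, h2, g, h3, h4, h5⟩
    refine ⟨fun T hT => ?_, fun T => ?_, c • g, fun T hT => ?_, fun T => ?_, fun T hT => ?_⟩
    · rw [Pi.smul_apply, h1 T hT, smul_zero]
    · exact (homogeneousSubmodule (Fin N) K (e + 1)).smul_mem c (h2 T)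
    · rw [Pi.smul_apply, h3 T hT, smul_zero]
    · exact (homogeneousSubmodule (Fin N) K e).smul_mem c (h4 T)
    · rw [koszulD_smul, Pi.smul_apply, ← smul_sub, smul_eq_C_mul]
      exact I.mul_mem_left _ (h5 T hT)

/-- The graded Betti number `b_{i, i+1+e}(S/I) = dim_K Tor_i^S(S/I, K)_{i+1+e}`, computed as the
homology of the Koszul complex of the variables with coefficients in `S/I`. Thus
`betti I i 0 = b_{i,i+1}` is the quadratic strand and `betti I i 1 = b_{i,i+2}` the cubic
strand. -/
noncomputable def betti (I : Ideal (MvPolynomial (Fin N) K)) (i e : ℕ) : ℕ :=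
  Module.finrank K
    (cycles I i (e + 1) ⧸ (boundaries I i e).comap (cycles I i (e + 1)).subtype)

end Koszul

/-! ### Graph curves -/

/-- `L` is a graph curve of `G` in `ℙ^{N-1}`: lines `ℙ(L v)`, pairwise distinct, two of them meet
exactly when the vertices are adjacent, no three have a common point, and they span. -/
structure IsGraphCurve {K : Type u} [Field K] {V : Type} (G : SimpleGraph V) {N : ℕ}
    (L : V → Submodule K (Fin N → K)) : Prop where
  line : ∀ v, Module.finrank K (L v) = 2
  distinct : Function.Injective L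
  meet : ∀ u v, u ≠ v → (G.Adj u v ↔ L u ⊓ L v ≠ ⊥)
  noTriple : ∀ u v w, u ≠ v → v ≠ w → u ≠ w → L u ⊓ L v ⊓ L w = ⊥
  spans : ⨆ v, L v = ⊤

/-- The ideal of the curve: all polynomials vanishing at every point of every line `L v`. -/
noncomputable def curveIdeal {K : Type u} [Field K] {V : Type} {N : ℕ}
    (L : V → Submodule K (Fin N → K)) : Ideal (MvPolynomial (Fin N) K) where
  carrier := {f | ∀ v, ∀ x ∈ L v, eval x f = 0}
  zero_mem' := fun v x _ => by simp
  add_mem' := fun {f g} hf hg v x hx => by rw [map_add, hf v x hx, hg v x hx, add_zero]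
  smul_mem' := fun c f hf v x hx => by rw [smul_eq_mul, map_mul, hf v x hx, mul_zero]

/-- The graph has a plane drawing with straight edges: distinct vertices go to distinct points,
two different edges meet at most in the image of a common end, and no vertex lies on an edge
it does not belong to. -/
def IsPlanar {V : Type} (G : SimpleGraph V) : Prop :=
  ∃ f : V → ℝ × ℝ, Function.Injective f ∧
    (∀ a b c, G.Adj a b → f c ∈ segment ℝ (f a) (f b) → c = a ∨ c = b) ∧
    ∀ a b c e, G.Adj a b → G.Adj c e → s(a, b) ≠ s(c, e) →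
      segment ℝ (f a) (f b) ∩ segment ℝ (f c) (f e) ⊆ f '' (({a, b} : Set V) ∩ {c, e})

/-- The genus `m - d + 1` of a graph with `d` vertices and `m` edges. -/
noncomputable def genus {V : Type} (G : SimpleGraph V) : ℤ :=
  (G.edgeSet.ncard : ℤ) - (Nat.card V : ℤ) + 1

/-- Every connected subgraph `H` satisfies `d(H) ≥ 2 g(H) + 1`. -/
def IsSparse {V : Type} (G : SimpleGraph V) : Prop :=
  ∀ H : G.Subgraph, H.Connected →
    (H.verts.ncard : ℤ) ≥ 2 * ((H.edgeSet.ncard : ℤ) - (H.verts.ncard : ℤ) + 1) + 1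

/-- The number of `c`-cycles: subgraphs of `G` isomorphic to the cycle graph `C_c`. -/
noncomputable def numCycles {V : Type} (G : SimpleGraph V) (c : ℕ) : ℕ :=
  Nat.card {H : G.Subgraph // Nonempty (H.coe ≃g SimpleGraph.cycleGraph c)}

end Q37.GraphCurve
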