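import Pool.Agent.Q37.GraphCurve.Defs

/-!
The house graph with a pendant vertex: its combinatorial properties.
-/

namespace Q37.GraphCurve

/-- The seven edges, oriented. -/
def houseE : Finset (Fin 6 × Fin 6) := {(0,1),(1,2),(2,3),(3,4),(0,4),(0,2),(3,5)}

/-- The graph on `0,…,5`: the triangle `0,1,2`, the four-cycle `0,2,3,4` and the pendant edge
`3,5`. -/
def house : SimpleGraph (Fin 6) where
  Adj a b := (a, b) ∈ houseE ∨ (b, a) ∈ houseE
  symm := ⟨fun _ _ h => h.symm⟩
  loopless := ⟨by decide⟩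

instance : DecidableRel house.Adj := fun a b => inferInstanceAs (Decidable (_ ∨ _))

lemma house_connected : house.Connected := by
  rw [SimpleGraph.connected_iff_exists_forall_reachable]
  refine ⟨0, fun w => ?_⟩
  have h01 : house.Reachable 0 1 := SimpleGraph.Adj.reachable (by decide)
  have h02 : house.Reachable 0 2 := SimpleGraph.Adj.reachable (by decide)
  have h04 : house.Reachable 0 4 := SimpleGraph.Adj.reachable (by decide)
  have h23 : house.Reachable 2 3 := SimpleGraph.Adj.reachable (by decide)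
  have h35 : house.Reachable 3 5 := SimpleGraph.Adj.reachable (by decide)
  fin_cases w
  · exact SimpleGraph.Reachable.refl _
  · exact h01
  · exact h02
  · exact h02.trans h23
  · exact h04
  · exact (h02.trans h23).trans h35

lemma house_degree : ∀ v, (house.neighborSet v).ncard ≤ 3 := by
  intro v
  rw [Set.ncard_eq_toFinset_card']
  revert v
  decide

/-- first coordinates of the drawing -/
def hx : Fin 6 → ℕ := ![0, 1, 2, 3, 5, 4]

lemma chord (a b c e X Y : ℝ) (hab : a < b) (hce : c < e) (h1 : Y = (a + b) * X - a * b)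
    (h2 : Y = (c + e) * X - c * e) (ha : a ≤ X) (hb : X ≤ b) (hc : c ≤ X) (he : X ≤ e)
    (hcase : b ≤ c ∨ e ≤ a ∨ (a ≤ c ∧ e ≤ b ∧ (a < c ∨ e < b)) ∨
      (c ≤ a ∧ b ≤ e ∧ (c < a ∨ b < e))) : (X = a ∨ X = b) ∧ (X = c ∨ X = e) := by
  have key : (X - a) * (b - X) = (X - c) * (e - X) := by nlinarith
  rcases hcase with h | h | ⟨h, h', h''⟩ | ⟨h, h', h''⟩
  · exact ⟨Or.inr (by linarith), Or.inl (by linarith)⟩
  · exact ⟨Or.inl (by linarith), Or.inr (by linarith)⟩
  · have h0 : (c - a) * (b - X) + (X - c) * (b - e) = 0 := by nlinarith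
    have p1 : 0 ≤ (c - a) * (b - X) := mul_nonneg (by linarith) (by linarith)
    have p2 : 0 ≤ (X - c) * (b - e) := mul_nonneg (by linarith) (by linarith)
    have q1 : (c - a) * (b - X) = 0 := by linarith
    have q2 : (X - c) * (b - e) = 0 := by linarith
    rcases mul_eq_zero.1 q1 with r1 | r1 <;> rcases mul_eq_zero.1 q2 with r2 | r2
    · exact ⟨Or.inl (by linarith), Or.inl (by linarith)⟩
    · exfalso; rcases h'' with h'' | h'' <;> linarith
    · exfalso; linarith
    · exact ⟨Or.inr (by linarith), Or.inr (by linarith)⟩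
  · have h0 : (a - c) * (e - X) + (X - a) * (e - b) = 0 := by nlinarith
    have p1 : 0 ≤ (a - c) * (e - X) := mul_nonneg (by linarith) (by linarith)
    have p2 : 0 ≤ (X - a) * (e - b) := mul_nonneg (by linarith) (by linarith)
    have q1 : (a - c) * (e - X) = 0 := by linarith
    have q2 : (X - a) * (e - b) = 0 := by linarith
    rcases mul_eq_zero.1 q1 with r1 | r1 <;> rcases mul_eq_zero.1 q2 with r2 | r2
    · exact ⟨Or.inl (by linarith), Or.inl (by linarith)⟩
    · exfalso; rcases h'' with h'' | h'' <;> linarith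
    · exfalso; linarith
    · exact ⟨Or.inr (by linarith), Or.inr (by linarith)⟩

/-- the drawing -/
noncomputable def hf (v : Fin 6) : ℝ × ℝ := ((hx v : ℝ), (hx v : ℝ) ^ 2)

lemma hx_inj : Function.Injective hx := by decide

lemma hf_inj : Function.Injective hf := by
  intro a b h
  have h1 : ((hx a : ℝ)) = hx b := congrArg Prod.fst h
  exact hx_inj (by exact_mod_cast h1)

lemma hE_lt : ∀ e ∈ houseE, hx e.1 < hx e.2 := by decide

lemma hE_case : ∀ p ∈ houseE, ∀ q ∈ houseE, p ≠ q →
    (hx p.2 ≤ hx q.1 ∨ hx q.2 ≤ hx p.1 ∨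
      (hx p.1 ≤ hx q.1 ∧ hx q.2 ≤ hx p.2 ∧ (hx p.1 < hx q.1 ∨ hx q.2 < hx p.2)) ∨
      (hx q.1 ≤ hx p.1 ∧ hx p.2 ≤ hx q.2 ∧ (hx q.1 < hx p.1 ∨ hx p.2 < hx q.2))) := by decide

lemma seg_prop {a b : Fin 6} (hab : hx a < hx b) {P : ℝ × ℝ}
    (h : P ∈ segment ℝ (hf a) (hf b)) :
    P.2 = ((hx a : ℝ) + hx b) * P.1 - hx a * hx b ∧ (hx a : ℝ) ≤ P.1 ∧ P.1 ≤ (hx b : ℝ) := by
  obtain ⟨u, v, hu, hv, huv, rfl⟩ := h
  have hab' : (hx a : ℝ) < hx b := by exact_mod_cast hab
  simp only [hf, Prod.smul_mk, smul_eq_mul, Prod.mk_add_mk]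
  have hv' : v = 1 - u := by linarith
  subst hv'
  refine ⟨by ring, ?_, ?_⟩
  · nlinarith
  · nlinarith

lemma hE_seg {a b c e : Fin 6} (h1 : (a, b) ∈ houseE) (h2 : (c, e) ∈ houseE)
    (hne : (a, b) ≠ (c, e)) :
    segment ℝ (hf a) (hf b) ∩ segment ℝ (hf c) (hf e) ⊆
      hf '' (({a, b} : Set (Fin 6)) ∩ {c, e}) := by
  rintro P ⟨hP1, hP2⟩
  have l1 : hx a < hx b := hE_lt _ h1
  have l2 : hx c < hx e := hE_lt _ h2
  obtain ⟨y1, a1, b1⟩ := seg_prop l1 hP1
  obtain ⟨y2, a2, b2⟩ := seg_prop l2 hP2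
  have hc := hE_case _ h1 _ h2 hne
  have hc' : ((hx b : ℝ) ≤ hx c ∨ (hx e : ℝ) ≤ hx a ∨
      ((hx a : ℝ) ≤ hx c ∧ (hx e : ℝ) ≤ hx b ∧ ((hx a : ℝ) < hx c ∨ (hx e : ℝ) < hx b)) ∨
      ((hx c : ℝ) ≤ hx a ∧ (hx b : ℝ) ≤ hx e ∧ ((hx c : ℝ) < hx a ∨ (hx b : ℝ) < hx e))) := by
    exact_mod_cast hc
  obtain ⟨d1, d2⟩ := chord (hx a) (hx b) (hx c) (hx e) P.1 P.2 (by exact_mod_cast l1)
    (by exact_mod_cast l2) y1 y2 a1 b1 a2 b2 hc'
  have mk : ∀ w : Fin 6, w ∈ ({a, b} : Set (Fin 6)) → P.1 = hx w → P = hf w := by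
    intro w hw hPw
    rcases hw with rfl | hw
    · refine Prod.ext hPw ?_
      rw [y1, hPw]; simp only [hf]; ring
    · rw [Set.mem_singleton_iff] at hw
      subst hw
      refine Prod.ext hPw ?_
      rw [y1, hPw]; simp only [hf]; ring
  have getw : ∃ w ∈ ({a, b} : Set (Fin 6)), P.1 = hx w := by
    rcases d1 with d1 | d1
    · exact ⟨a, by simp, d1⟩
    · exact ⟨b, by simp, d1⟩
  have getw' : ∃ w ∈ ({c, e} : Set (Fin 6)), P.1 = hx w := by
    rcases d2 with d2 | d2
    · exact ⟨c, by simp, d2⟩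
    · exact ⟨e, by simp, d2⟩
  obtain ⟨w, hw, hw'⟩ := getw
  obtain ⟨z, hz, hz'⟩ := getw'
  have hwz : w = z := hx_inj (by
    have : (hx w : ℝ) = hx z := by rw [← hw', ← hz']
    exact_mod_cast this)
  subst hwz
  exact ⟨w, ⟨hw, hz⟩, (mk w hw hw').symm⟩

lemma house_planar : IsPlanar house := by
  refine ⟨hf, hf_inj, ?_, ?_⟩
  · have main : ∀ a b c : Fin 6, (a, b) ∈ houseE → hf c ∈ segment ℝ (hf a) (hf b) →
        c = a ∨ c = b := by
      intro a b c h hc
      obtain ⟨y, a1, b1⟩ := seg_prop (hE_lt _ h) hc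
      simp only [hf] at y a1 b1
      have : ((hx c : ℝ) - hx a) * ((hx c : ℝ) - hx b) = 0 := by nlinarith
      rcases mul_eq_zero.1 this with h | h
      · left; apply hx_inj
        have : (hx c : ℝ) = hx a := by linarith
        exact_mod_cast this
      · right; apply hx_inj
        have : (hx c : ℝ) = hx b := by linarith
        exact_mod_cast this
    intro a b c hab hc
    rcases hab with h | h
    · exact main a b c h hc
    · rw [segment_symm] at hc
      exact (main b a c h hc).symm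
  · intro a b c e hab hce hne
    rcases hab with h | h <;> rcases hce with h' | h'
    · refine hE_seg h h' ?_
      rintro heq; apply hne
      rw [Prod.mk.injEq] at heq; rw [heq.1, heq.2]
    · rw [segment_symm ℝ (hf c), Set.pair_comm c e]
      refine hE_seg h h' ?_
      rintro heq; apply hne
      rw [Prod.mk.injEq] at heq; rw [heq.1, heq.2]; exact Sym2.eq_swap
    · rw [segment_symm ℝ (hf a), Set.pair_comm a b]
      refine hE_seg h h' ?_
      rintro heq; apply hne
      rw [Prod.mk.injEq] at heq; rw [heq.1, heq.2]; exact Sym2.eq_swap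
    · rw [segment_symm ℝ (hf c), Set.pair_comm c e, segment_symm ℝ (hf a), Set.pair_comm a b]
      refine hE_seg h h' ?_
      rintro heq; apply hne
      rw [Prod.mk.injEq] at heq; rw [heq.1, heq.2]

/-! ### sparsity and genus -/

lemma house_edge (e : Sym2 (Fin 6)) : e ∈ house.edgeSet ↔ e ∈ houseE.image (fun p => s(p.1, p.2)) := by
  revert e
  rw [Sym2.forall]
  intro a b
  rw [SimpleGraph.mem_edgeSet]
  revert a b
  decide

lemma house_edge_card : house.edgeSet.ncard = 7 := by
  have : house.edgeSet = (houseE.image (fun p => s(p.1, p.2)) : Finset (Sym2 (Fin 6))) := by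
    ext e; rw [house_edge]; rfl
  rw [this, Set.ncard_coe_finset]
  decide

lemma house_genus : genus house = 2 := by
  unfold genus
  rw [house_edge_card, Nat.card_eq_fintype_card, Fintype.card_fin]
  norm_num

lemma sparse_dec : ∀ S : Finset (Fin 6), S.Nonempty →
    2 * (houseE.filter (fun p => p.1 ∈ S ∧ p.2 ∈ S)).card + 3 ≤ 3 * S.card := by decide

lemma house_sparse : IsSparse house := by
  intro H hH
  classical
  have hne : H.verts.Nonempty := by
    have := hH.nonempty
    exact this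
  set S : Finset (Fin 6) := H.verts.toFinset with hS
  have hSc : H.verts.ncard = S.card := Set.ncard_eq_toFinset_card' _
  have hSne : S.Nonempty := by rw [hS, Set.toFinset_nonempty]; exact hne
  have h1 := sparse_dec S hSne
  have h2 : H.edgeSet.ncard ≤ (houseE.filter (fun p => p.1 ∈ S ∧ p.2 ∈ S)).card := by
    have hsub : H.edgeSet ⊆
        ((houseE.filter (fun p => p.1 ∈ S ∧ p.2 ∈ S)).image (fun p => s(p.1, p.2)) :
          Finset (Sym2 (Fin 6))) := by
      intro e
      induction e with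
      | _ a b =>
      intro he
      rw [SimpleGraph.Subgraph.mem_edgeSet] at he
      have ha : a ∈ S := by rw [hS, Set.mem_toFinset]; exact he.fst_mem
      have hb : b ∈ S := by rw [hS, Set.mem_toFinset]; exact he.snd_mem
      have hadj : house.Adj a b := he.adj_sub
      rw [Finset.mem_coe, Finset.mem_image]
      rcases hadj with h | h
      · exact ⟨(a, b), Finset.mem_filter.2 ⟨h, ha, hb⟩, rfl⟩
      · exact ⟨(b, a), Finset.mem_filter.2 ⟨h, hb, ha⟩, Sym2.eq_swap⟩
    calc H.edgeSet.ncard ≤ ((houseE.filter (fun p => p.1 ∈ S ∧ p.2 ∈ S)).image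
          (fun p => s(p.1, p.2)) : Set (Sym2 (Fin 6))).ncard :=
          Set.ncard_le_ncard hsub (Finset.finite_toSet _)
      _ ≤ _ := by rw [Set.ncard_coe_finset]; exact Finset.card_image_le
  rw [hSc]
  have h3 : 2 * H.edgeSet.ncard + 3 ≤ 3 * S.card := by omega
  have h4 : 2 * (H.edgeSet.ncard : ℤ) + 3 ≤ 3 * (S.card : ℤ) := by exact_mod_cast h3
  linarith

/-! ### girth and triangles -/

lemma house_clique_iff : ∀ a b c : Fin 6, house.Adj a b → house.Adj b c → house.Adj a c →
    (({a, b, c} : Finset (Fin 6)) = {0, 1, 2}) := by decide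

lemma house_cycle3 : ∃ (u : Fin 6) (w : house.Walk u u), w.IsCycle ∧ w.length = 3 := by
  have h01 : house.Adj 0 1 := by decide
  have h12 : house.Adj 1 2 := by decide
  have h20 : house.Adj 2 0 := by decide
  refine ⟨0, .cons h01 (.cons h12 (.cons h20 .nil)), ?_, rfl⟩
  simp [SimpleGraph.Walk.isCycle_def, SimpleGraph.Walk.isTrail_def]

lemma house_not_acyclic : ¬ house.IsAcyclic := by
  obtain ⟨u, w, hw, _⟩ := house_cycle3
  exact fun h => h w hw

lemma house_girth : house.girth = 3 := by
  obtain ⟨u, w, hw, hl⟩ := house_cycle3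
  have h1 := SimpleGraph.three_le_girth house_not_acyclic
  have h2 := hw.girth_le_length
  omega

lemma house_numCycles : numCycles house 3 = 1 := by
  unfold numCycles
  classical
  have h01 : house.Adj 0 1 := by decide
  have h12 : house.Adj 1 2 := by decide
  have h02 : house.Adj 0 2 := by decide
  let s : Set (Fin 6) := ((({0, 1, 2} : Finset (Fin 6)) : Finset (Fin 6)) : Set (Fin 6))
  -- every such subgraph has vertex set {0,1,2} and all pairs adjacent
  have key : ∀ H : house.Subgraph, Nonempty (H.coe ≃g SimpleGraph.cycleGraph 3) →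
      H = (⊤ : house.Subgraph).induce s := by
    rintro H ⟨φ⟩
    have hcomp : ∀ i j : Fin 3, i ≠ j → (SimpleGraph.cycleGraph 3).Adj i j := by decide
    have hadj : ∀ i j : Fin 3, i ≠ j → H.Adj (φ.symm i : Fin 6) (φ.symm j : Fin 6) := by
      intro i j hij
      have := (φ.symm.map_adj_iff (v := i) (w := j)).2 (hcomp i j hij)
      exact this
    have hall : ∀ x ∈ H.verts, ∃ i : Fin 3, (φ.symm i : Fin 6) = x := by
      intro x hx
      exact ⟨φ ⟨x, hx⟩, by simp⟩
    have hset := house_clique_iff (φ.symm 0) (φ.symm 1) (φ.symm 2)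
      (hadj 0 1 (by decide)).adj_sub (hadj 1 2 (by decide)).adj_sub
      (hadj 0 2 (by decide)).adj_sub
    have hverts : H.verts = s := by
      ext x
      have : x ∈ s ↔ x ∈ (({0, 1, 2} : Finset (Fin 6))) := Finset.mem_coe
      rw [this, ← hset]
      simp only [Finset.mem_insert, Finset.mem_singleton]
      constructor
      · intro hx
        obtain ⟨i, hi⟩ := hall x hx
        fin_cases i
        · left; exact hi.symm
        · right; left; exact hi.symm
        · right; right; exact hi.symm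
      · rintro (h | h | h) <;> rw [h] <;> exact Subtype.coe_prop _
    apply SimpleGraph.Subgraph.ext
    · rw [hverts]; rfl
    · ext a b
      constructor
      · intro h
        refine ⟨?_, ?_, ?_⟩
        · rw [← hverts]; exact h.fst_mem
        · rw [← hverts]; exact h.snd_mem
        · exact h.adj_sub
      · rintro ⟨ha, hb, hab⟩
        rw [← hverts] at ha hb
        obtain ⟨i, hi⟩ := hall a ha
        obtain ⟨j, hj⟩ := hall b hb
        have hne : i ≠ j := by
          rintro rfl
          have : a = b := by rw [← hi, ← hj]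
          exact (SimpleGraph.Adj.ne (SimpleGraph.Subgraph.Adj.adj_sub hab)) this
        rw [← hi, ← hj]
        exact hadj i j hne
  have hex : Nonempty (((⊤ : house.Subgraph).induce s).coe ≃g SimpleGraph.cycleGraph 3) := by
    have hs : ∀ i : Fin 3, (![0, 1, 2] : Fin 3 → Fin 6) i ∈ ((⊤ : house.Subgraph).induce s).verts := by
      intro i
      change _ ∈ s
      fin_cases i <;> simp [s]
    let g : Fin 3 → ((⊤ : house.Subgraph).induce s).verts := fun i => ⟨(![0, 1, 2] : Fin 3 → Fin 6) i, hs i⟩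
    have hg : Function.Bijective g := by
      constructor
      · intro i j hij
        have h' : (![0, 1, 2] : Fin 3 → Fin 6) i = (![0, 1, 2] : Fin 3 → Fin 6) j := congrArg Subtype.val hij
        clear hij
        revert h'
        revert i j
        decide
      · rintro ⟨x, hx⟩
        have hx' : x ∈ ({0, 1, 2} : Finset (Fin 6)) := hx
        simp only [Finset.mem_insert, Finset.mem_singleton] at hx'
        rcases hx' with rfl | rfl | rfl
        · exact ⟨0, rfl⟩
        · exact ⟨1, rfl⟩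
        · exact ⟨2, rfl⟩
    let e : Fin 3 ≃ ((⊤ : house.Subgraph).induce s).verts := Equiv.ofBijective g hg
    have hdec : ∀ i j : Fin 3, house.Adj ((![0, 1, 2] : Fin 3 → Fin 6) i) ((![0, 1, 2] : Fin 3 → Fin 6) j) ↔
        (SimpleGraph.cycleGraph 3).Adj i j := by decide
    refine ⟨(SimpleGraph.Iso.symm ⟨e, ?_⟩)⟩
    intro i j
    change ((⊤ : house.Subgraph).induce s).Adj _ _ ↔ _
    rw [← hdec i j]
    constructor
    · rintro ⟨_, _, h⟩; exact h
    · intro h; exact ⟨hs i, hs j, h⟩
  rw [Nat.card_eq_one_iff_unique]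
  exact ⟨⟨fun x y => Subtype.ext ((key _ x.2).trans (key _ y.2).symm)⟩, ⟨⟨_, hex⟩⟩⟩

end Q37.GraphCurve
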