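import Pool.Agent.Q37.GraphCurve.HouseCurve

/-!
`b_{1,3} ≠ 1` for the graph curve of the house graph with a pendant vertex.
-/

open MvPolynomial

namespace Q37.GraphCurve

universe u

variable {K : Type u} [Field K]

lemma eval_quadric {N : ℕ} (q : MvPolynomial (Fin N) K) (hq : q.IsHomogeneous 2) (a b c : K)
    (u v w : Fin N → K) :
    eval (a • u + b • v + c • w) q = a ^ 2 * eval u q + b ^ 2 * eval v q + c ^ 2 * eval w q
      + a * b * (eval (u + v) q - eval u q - eval v q)
      + a * c * (eval (u + w) q - eval u q - eval w q)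
      + b * c * (eval (v + w) q - eval v q - eval w q) := by
  have hmem : q ∈ homogeneousSubmodule (Fin N) K 1 * homogeneousSubmodule (Fin N) K 1 := by
    rw [← pow_two, homogeneousSubmodule_one_pow]; exact hq
  induction hmem using Submodule.mul_induction_on' with
  | mem_mul_mem m hm n hn =>
    have hm' : m.IsHomogeneous 1 := hm
    have hn' : n.IsHomogeneous 1 := hn
    have uv : u + v = (1 : K) • u + (1 : K) • v + (0 : K) • w := by simp
    have uw : u + w = (1 : K) • u + (0 : K) • v + (1 : K) • w := by simp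
    have vw : v + w = (0 : K) • u + (1 : K) • v + (1 : K) • w := by simp
    rw [uv, uw, vw]
    simp only [map_mul, eval_linear m hm', eval_linear n hn']
    ring
  | add x hx y hy h1 h2 =>
    have hx' : x.IsHomogeneous 2 := by
      rw [← pow_two, homogeneousSubmodule_one_pow] at hx; exact hx
    have hy' : y.IsHomogeneous 2 := by
      rw [← pow_two, homogeneousSubmodule_one_pow] at hy; exact hy
    simp only [map_add] at *
    rw [h1 hx', h2 hy']; ring

/-- quadrics through the curve contain the plane `x₀ = x₄ = 0` -/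
lemma quadric_plane (q : MvPolynomial (Fin 5) K) (hq : q.IsHomogeneous 2)
    (hI : q ∈ curveIdeal (hL K)) (a b c : K) : eval ![0, a, b, c, 0] q = 0 := by
  have h : (![0, a, b, c, 0] : Fin 5 → K) =
      a • ![0, 1, 0, 0, 0] + b • ![0, 0, 1, 0, 0] + c • ![0, 0, 0, 1, 0] := by
    ext i; fin_cases i <;> simp
  rw [h, eval_quadric q hq]
  have e1 : eval (![0, 1, 0, 0, 0] : Fin 5 → K) q = 0 := hI 0 _ ((memL0 _).2 (by simp))
  have e2 : eval (![0, 0, 1, 0, 0] : Fin 5 → K) q = 0 := hI 2 _ ((memL2 _).2 (by simp))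
  have e3 : eval (![0, 0, 0, 1, 0] : Fin 5 → K) q = 0 := hI 3 _ ((memL3 _).2 (by simp))
  have e12 : eval ((![0, 1, 0, 0, 0] : Fin 5 → K) + ![0, 0, 1, 0, 0]) q = 0 :=
    hI 1 _ ((memL1 _).2 (by simp))
  have e13 : eval ((![0, 1, 0, 0, 0] : Fin 5 → K) + ![0, 0, 0, 1, 0]) q = 0 :=
    hI 4 _ ((memL4 _).2 (by simp))
  have e23 : eval ((![0, 0, 1, 0, 0] : Fin 5 → K) + ![0, 0, 0, 1, 0]) q = 0 :=
    hI 5 _ ((memL5 _).2 (by simp))
  rw [e1, e2, e3, e12, e13, e23]; ring

lemma koszul_dd {N : ℕ} (g : Finset (Fin N) → MvPolynomial (Fin N) K) :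
    ∑ t : Fin N, X t * koszulD g {t} = 0 := by
  unfold koszulD
  simp only [Finset.mul_sum]
  rw [Finset.sum_sigma']
  refine Finset.sum_involution (fun p _ => ⟨p.2, p.1⟩) ?_ ?_ ?_ ?_
  · rintro ⟨t, j⟩ hp
    simp only [Finset.mem_sigma, Finset.mem_univ, Finset.mem_sdiff, Finset.mem_singleton,
      true_and] at hp
    have hpair : (insert t {j} : Finset (Fin N)) = insert j {t} := Finset.pair_comm _ _
    simp only [Finset.filter_singleton]
    rw [hpair]
    rcases lt_or_gt_of_ne hp with h | h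
    · rw [if_neg (not_lt.2 h.le), if_pos h]; simp; ring
    · rw [if_pos h, if_neg (not_lt.2 h.le)]; simp; ring
  · rintro ⟨t, j⟩ hp _ h
    simp only [Finset.mem_sigma, Finset.mem_univ, Finset.mem_sdiff, Finset.mem_singleton,
      true_and] at hp
    have : j = t := (Sigma.mk.inj h).1
    exact hp this
  · rintro ⟨t, j⟩ hp
    simp only [Finset.mem_sigma, Finset.mem_univ, Finset.mem_sdiff, Finset.mem_singleton,
      true_and] at hp ⊢
    exact fun h => hp h.symm
  · rintro ⟨t, j⟩ _; rfl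

/-- the two cubics as Koszul cycles -/
noncomputable def hc1 : Finset (Fin 5) → MvPolynomial (Fin 5) K :=
  Pi.single {2} ((X 1 - X 2) * (X 0 - X 1))

/-- the two cubics as Koszul cycles -/
noncomputable def hc2 : Finset (Fin 5) → MvPolynomial (Fin 5) K :=
  Pi.single {3} (X 1 * X 2)

lemma koszulD_empty (f : Finset (Fin 5) → MvPolynomial (Fin 5) K) :
    koszulD f ∅ = ∑ t : Fin 5, X t * f {t} := by
  unfold koszulD
  rw [Finset.sdiff_empty]
  refine Finset.sum_congr rfl fun t _ => ?_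
  simp

lemma sum_hc1 : ∑ t : Fin 5, X t * (hc1 (K := K)) {t} = X 2 * ((X 1 - X 2) * (X 0 - X 1)) := by
  rw [Finset.sum_eq_single 2]
  · simp [hc1]
  · intro t _ ht
    rw [hc1, Pi.single_eq_of_ne, mul_zero]
    intro h; exact ht (Finset.singleton_inj.1 h)
  · simp

lemma sum_hc2 : ∑ t : Fin 5, X t * (hc2 (K := K)) {t} = X 3 * (X 1 * X 2) := by
  rw [Finset.sum_eq_single 3]
  · simp [hc2]
  · intro t _ ht
    rw [hc2, Pi.single_eq_of_ne, mul_zero]
    intro h; exact ht (Finset.singleton_inj.1 h)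
  · simp

lemma hc1_mem : hc1 ∈ cycles (curveIdeal (hL K)) 1 2 := by
  refine ⟨fun T hT => ?_, fun T => ?_, fun T hT => ?_⟩
  · rw [hc1, Pi.single_eq_of_ne]
    rintro rfl; simp at hT
  · rw [hc1]
    by_cases h : T = {2}
    · subst h; rw [Pi.single_eq_same]
      exact ((isHomogeneous_X K 1).sub (isHomogeneous_X K 2)).mul
        ((isHomogeneous_X K 0).sub (isHomogeneous_X K 1))
    · rw [Pi.single_eq_of_ne h]; exact isHomogeneous_zero _ _ _
  · have : T = ∅ := Finset.card_eq_zero.1 (by omega)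
    subst this
    rw [koszulD_empty, sum_hc1]
    intro v x hx
    simp only [map_mul, map_sub, eval_X]
    fin_cases v
    · obtain ⟨h1, h2, h3⟩ := (memL0 x).1 hx; rw [h1]; ring
    · obtain ⟨h1, h2, h3⟩ := (memL1 x).1 hx; rw [h1]; ring
    · obtain ⟨h1, h2, h3⟩ := (memL2 x).1 hx; rw [h1]; ring
    · obtain ⟨h1, h2, h3⟩ := (memL3 x).1 hx; rw [h1, h2]; ring
    · obtain ⟨h1, h2, h3⟩ := (memL4 x).1 hx; rw [h2]; ring
    · obtain ⟨h1, h2, h3⟩ := (memL5 x).1 hx; rw [h1, h2]; ring

lemma hc2_mem : hc2 ∈ cycles (curveIdeal (hL K)) 1 2 := by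
  refine ⟨fun T hT => ?_, fun T => ?_, fun T hT => ?_⟩
  · rw [hc2, Pi.single_eq_of_ne]
    rintro rfl; simp at hT
  · rw [hc2]
    by_cases h : T = {3}
    · subst h; rw [Pi.single_eq_same]
      exact (isHomogeneous_X K 1).mul (isHomogeneous_X K 2)
    · rw [Pi.single_eq_of_ne h]; exact isHomogeneous_zero _ _ _
  · have : T = ∅ := Finset.card_eq_zero.1 (by omega)
    subst this
    rw [koszulD_empty, sum_hc2]
    intro v x hx
    simp only [map_mul, map_sub, eval_X]
    fin_cases v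
    · obtain ⟨h1, h2, h3⟩ := (memL0 x).1 hx; rw [h1]; ring
    · obtain ⟨h1, h2, h3⟩ := (memL1 x).1 hx; rw [h2]; ring
    · obtain ⟨h1, h2, h3⟩ := (memL2 x).1 hx; rw [h2]; ring
    · obtain ⟨h1, h2, h3⟩ := (memL3 x).1 hx; rw [h2]; ring
    · obtain ⟨h1, h2, h3⟩ := (memL4 x).1 hx; rw [h2]; ring
    · obtain ⟨h1, h2, h3⟩ := (memL5 x).1 hx; rw [h2]; ring

/-- No nontrivial combination of the two cycles is a boundary. -/
lemma hc_indep [CharZero K] (a b : K)
    (h : a • hc1 + b • hc2 ∈ boundaries (curveIdeal (hL K)) 1 1) : a = 0 ∧ b = 0 := by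
  obtain ⟨-, hhom, g, -, hg, hI⟩ := h
  -- the quadrics
  have hq : ∀ t : Fin 5, ((a • hc1 + b • hc2 : Finset (Fin 5) → MvPolynomial (Fin 5) K) {t}
      - koszulD g {t}).IsHomogeneous 2 := by
    intro t
    refine (hhom {t}).sub ?_
    unfold koszulD
    refine IsHomogeneous.sum _ _ _ fun j _ => ?_
    have h1 : ((-1 : MvPolynomial (Fin 5) K) ^ (({t} : Finset (Fin 5)).filter (· < j)).card).IsHomogeneous 0 := by
      have : ((-1 : MvPolynomial (Fin 5) K)).IsHomogeneous 0 := by
        have := isHomogeneous_C (Fin 5) (-1 : K)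
        simpa using this
      simpa using this.pow ((({t} : Finset (Fin 5)).filter (· < j)).card)
    have h2 := (h1.mul (isHomogeneous_X K j)).mul (hg (insert j {t}))
    simpa using h2
  have key : ∀ x y z : K,
      eval ![0, x, y, z, 0] (a • (X 2 * ((X 1 - X 2) * (X 0 - X 1))) + b • (X 3 * (X 1 * X 2)) :
        MvPolynomial (Fin 5) K) = 0 := by
    intro x y z
    have e : (a • (X 2 * ((X 1 - X 2) * (X 0 - X 1))) + b • (X 3 * (X 1 * X 2)) :
        MvPolynomial (Fin 5) K) = ∑ t : Fin 5, X t *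
          ((a • hc1 + b • hc2 : Finset (Fin 5) → MvPolynomial (Fin 5) K) {t} - koszulD g {t}) := by
      have e' : ∑ t : Fin 5, X t *
          ((a • hc1 + b • hc2 : Finset (Fin 5) → MvPolynomial (Fin 5) K) {t} - koszulD g {t}) =
          ∑ t : Fin 5, X t * ((a • hc1 + b • hc2 : Finset (Fin 5) → MvPolynomial (Fin 5) K) {t}) -
          ∑ t : Fin 5, X t * koszulD g {t} := by
        rw [← Finset.sum_sub_distrib]
        exact Finset.sum_congr rfl fun t _ => mul_sub _ _ _
      rw [e', koszul_dd, sub_zero, ← sum_hc1, ← sum_hc2, Finset.smul_sum, Finset.smul_sum,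
        ← Finset.sum_add_distrib]
      refine Finset.sum_congr rfl fun t _ => ?_
      simp only [Pi.add_apply, Pi.smul_apply, mul_add, mul_smul_comm]
    rw [e, map_sum]
    refine Finset.sum_eq_zero fun t _ => ?_
    rw [map_mul, quadric_plane _ (hq t) (hI {t} (Finset.card_singleton t)), mul_zero]
  have k1 := key 1 1 1
  have k2 := key 1 2 0
  simp [smul_eval] at k1 k2
  refine ⟨?_, k1⟩
  rcases k2 with k2 | k2
  · exact k2
  · exfalso
    norm_num at k2

theorem house_betti [CharZero K] : betti (curveIdeal (hL K)) 1 1 ≠ 1 := by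
  intro h
  unfold betti at h
  obtain ⟨v, hv, hall⟩ := finrank_eq_one_iff'.1 h
  set M := (boundaries (curveIdeal (hL K)) 1 1).comap (cycles (curveIdeal (hL K)) 1 (1 + 1)).subtype
    with hM
  obtain ⟨a, ha⟩ := hall (M.mkQ ⟨hc1, hc1_mem⟩)
  obtain ⟨b, hb⟩ := hall (M.mkQ ⟨hc2, hc2_mem⟩)
  have h0 : M.mkQ (b • ⟨hc1, hc1_mem⟩ + (-a) • ⟨hc2, hc2_mem⟩) = 0 := by
    rw [map_add, map_smul, map_smul, ← ha, ← hb, smul_smul, smul_smul, ← add_smul]
    have : b * a + -a * b = 0 := by ring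
    rw [this, zero_smul]
  rw [Submodule.mkQ_apply, Submodule.Quotient.mk_eq_zero] at h0
  have h1 := hc_indep (K := K) b (-a) h0
  have hb0 := h1.1
  have h2 : M.mkQ ⟨hc2, hc2_mem⟩ = 0 := by rw [← hb, hb0, zero_smul]
  rw [Submodule.mkQ_apply, Submodule.Quotient.mk_eq_zero] at h2
  have h3 := hc_indep (K := K) 0 1 (by
    have : (0 : K) • hc1 + (1 : K) • hc2 = (hc2 : Finset (Fin 5) → MvPolynomial (Fin 5) K) := by
      rw [zero_smul, one_smul, zero_add]
    rw [this]; exact h2)
  exact one_ne_zero h3.2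

end Q37.GraphCurve
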