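import Pool.Agent.Q37.GraphCurve.House

/-!
A graph curve of the house graph with a pendant vertex, and its Betti number `b_{1,3}`.
-/

open MvPolynomial

namespace Q37.GraphCurve

universe u

variable (K : Type u) [Field K]

/-- First spanning vector of the lines. -/
def hA : Fin 6 → Fin 5 → K :=
  ![![1,0,0,0,0], ![1,0,0,0,0], ![1,1,0,0,0], ![0,0,1,0,0], ![0,1,0,0,0], ![0,0,1,1,0]]

/-- Second spanning vector of the lines. -/
def hB : Fin 6 → Fin 5 → K :=
  ![![0,1,0,0,0], ![0,1,1,0,0], ![0,0,1,0,0], ![0,0,0,1,0], ![0,0,0,1,0], ![0,0,0,0,1]]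

/-- The six lines. -/
noncomputable def hL (v : Fin 6) : Submodule K (Fin 5 → K) := Submodule.span K {hA K v, hB K v}

variable {K}

lemma memL0 (x : Fin 5 → K) : x ∈ hL K 0 ↔ x 2 = 0 ∧ x 3 = 0 ∧ x 4 = 0 := by
  unfold hL
  rw [Submodule.mem_span_pair]
  constructor
  · rintro ⟨s, t, rfl⟩; simp [hA, hB]
  · rintro ⟨h2, h3, h4⟩
    refine ⟨x 0, x 1, ?_⟩
    ext i; fin_cases i <;> simp [hA, hB, h2, h3, h4]

lemma memL1 (x : Fin 5 → K) : x ∈ hL K 1 ↔ x 1 = x 2 ∧ x 3 = 0 ∧ x 4 = 0 := by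
  unfold hL
  rw [Submodule.mem_span_pair]
  constructor
  · rintro ⟨s, t, rfl⟩; simp [hA, hB]
  · rintro ⟨h2, h3, h4⟩
    refine ⟨x 0, x 1, ?_⟩
    ext i; fin_cases i <;> simp [hA, hB, h2, h3, h4]

lemma memL2 (x : Fin 5 → K) : x ∈ hL K 2 ↔ x 0 = x 1 ∧ x 3 = 0 ∧ x 4 = 0 := by
  unfold hL
  rw [Submodule.mem_span_pair]
  constructor
  · rintro ⟨s, t, rfl⟩; simp [hA, hB]
  · rintro ⟨h2, h3, h4⟩
    refine ⟨x 0, x 2, ?_⟩
    ext i; fin_cases i <;> simp [hA, hB, h2, h3, h4]

lemma memL3 (x : Fin 5 → K) : x ∈ hL K 3 ↔ x 0 = 0 ∧ x 1 = 0 ∧ x 4 = 0 := by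
  unfold hL
  rw [Submodule.mem_span_pair]
  constructor
  · rintro ⟨s, t, rfl⟩; simp [hA, hB]
  · rintro ⟨h2, h3, h4⟩
    refine ⟨x 2, x 3, ?_⟩
    ext i; fin_cases i <;> simp [hA, hB, h2, h3, h4]

lemma memL4 (x : Fin 5 → K) : x ∈ hL K 4 ↔ x 0 = 0 ∧ x 2 = 0 ∧ x 4 = 0 := by
  unfold hL
  rw [Submodule.mem_span_pair]
  constructor
  · rintro ⟨s, t, rfl⟩; simp [hA, hB]
  · rintro ⟨h2, h3, h4⟩
    refine ⟨x 1, x 3, ?_⟩
    ext i; fin_cases i <;> simp [hA, hB, h2, h3, h4]

lemma memL5 (x : Fin 5 → K) : x ∈ hL K 5 ↔ x 0 = 0 ∧ x 1 = 0 ∧ x 2 = x 3 := by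
  unfold hL
  rw [Submodule.mem_span_pair]
  constructor
  · rintro ⟨s, t, rfl⟩; simp [hA, hB]
  · rintro ⟨h2, h3, h4⟩
    refine ⟨x 2, x 4, ?_⟩
    ext i; fin_cases i <;> simp [hA, hB, h2, h3, h4]

/-- the non-adjacent pairs -/
def houseN : Finset (Fin 6 × Fin 6) := {(0,3),(0,5),(1,3),(1,4),(1,5),(2,4),(2,5),(4,5)}

lemma houseN_cover : ∀ a b : Fin 6, a ≠ b → ¬ house.Adj a b → (a, b) ∈ houseN ∨ (b, a) ∈ houseN := by
  decide

lemma zero_of (x : Fin 5 → K) (h0 : x 0 = 0) (h1 : x 1 = 0) (h2 : x 2 = 0) (h3 : x 3 = 0)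
    (h4 : x 4 = 0) : x = 0 := by
  ext i; fin_cases i <;> simp [h0, h1, h2, h3, h4]

lemma houseN_zero : ∀ p ∈ houseN, ∀ x, x ∈ hL K p.1 → x ∈ hL K p.2 → x = 0 := by
  intro p hp x h1 h2
  simp only [houseN, Finset.mem_insert, Finset.mem_singleton] at hp
  rcases hp with rfl | rfl | rfl | rfl | rfl | rfl | rfl | rfl <;>
  simp only [memL0, memL1, memL2, memL3, memL4, memL5] at h1 h2 <;>
  obtain ⟨a1, a2, a3⟩ := h1 <;> obtain ⟨b1, b2, b3⟩ := h2 <;>
  apply zero_of <;> simp_all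

lemma houseE_meet : ∀ p ∈ houseE, ∃ x, x ∈ hL K p.1 ∧ x ∈ hL K p.2 ∧ x ≠ 0 := by
  intro p hp
  simp only [houseE, Finset.mem_insert, Finset.mem_singleton] at hp
  have ne : ∀ (y : Fin 5 → K) (i : Fin 5), y i = 1 → y ≠ 0 := by
    intro y i h h'
    rw [h'] at h
    exact zero_ne_one h
  rcases hp with rfl | rfl | rfl | rfl | rfl | rfl | rfl <;>
  simp only [memL0, memL1, memL2, memL3, memL4, memL5]
  · exact ⟨![1,0,0,0,0], by simp, by simp, ne _ 0 (by simp)⟩
  · exact ⟨![1,1,1,0,0], by simp, by simp, ne _ 0 (by simp)⟩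
  · exact ⟨![0,0,1,0,0], by simp, by simp, ne _ 2 (by simp)⟩
  · exact ⟨![0,0,0,1,0], by simp, by simp, ne _ 3 (by simp)⟩
  · exact ⟨![0,1,0,0,0], by simp, by simp, ne _ 1 (by simp)⟩
  · exact ⟨![1,1,0,0,0], by simp, by simp, ne _ 0 (by simp)⟩
  · exact ⟨![0,0,1,1,0], by simp, by simp, ne _ 2 (by simp)⟩

lemma houseE_diff : ∀ p ∈ houseE, ∃ x, x ∈ hL K p.1 ∧ x ∉ hL K p.2 := by
  intro p hp
  simp only [houseE, Finset.mem_insert, Finset.mem_singleton] at hp
  rcases hp with rfl | rfl | rfl | rfl | rfl | rfl | rfl <;>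
  simp only [memL0, memL1, memL2, memL3, memL4, memL5]
  · exact ⟨![0,1,0,0,0], by simp, by simp⟩
  · exact ⟨![1,0,0,0,0], by simp, by simp⟩
  · exact ⟨![1,1,0,0,0], by simp, by simp⟩
  · exact ⟨![0,0,1,0,0], by simp, by simp⟩
  · exact ⟨![1,0,0,0,0], by simp, by simp⟩
  · exact ⟨![1,0,0,0,0], by simp, by simp⟩
  · exact ⟨![0,0,1,0,0], by simp, by simp⟩

lemma hL_finrank (v : Fin 6) : Module.finrank K (hL K v) = 2 := by
  have hli : LinearIndependent K ![hA K v, hB K v] := by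
    rw [LinearIndependent.pair_iff]
    intro s t h
    have h' : ∀ i, s * hA K v i + t * hB K v i = 0 := fun i => by
      have := congrFun h i
      simpa using this
    have h0 := h' 0
    have h1 := h' 1
    have h2 := h' 2
    have h3 := h' 3
    have h4 := h' 4
    fin_cases v <;> simp [hA, hB] at h0 h1 h2 h3 h4 <;> constructor <;> simp_all
  have := finrank_span_eq_card hli
  rw [Matrix.range_cons_cons_empty, Fintype.card_fin] at this
  exact this

lemma triangle_zero (x : Fin 5 → K) (h0 : x ∈ hL K 0) (h1 : x ∈ hL K 1) (h2 : x ∈ hL K 2) :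
    x = 0 := by
  rw [memL0] at h0
  rw [memL1] at h1
  rw [memL2] at h2
  obtain ⟨a1, a2, a3⟩ := h0
  obtain ⟨b1, b2, b3⟩ := h1
  obtain ⟨c1, c2, c3⟩ := h2
  have e1 : x 1 = 0 := by rw [b1, a1]
  exact zero_of x (by rw [c1, e1]) e1 a1 a2 a3

lemma nonadj_zero {a b : Fin 6} (hab : a ≠ b) (h : ¬ house.Adj a b) (x : Fin 5 → K)
    (ha : x ∈ hL K a) (hb : x ∈ hL K b) : x = 0 := by
  rcases houseN_cover a b hab h with h | h
  · exact houseN_zero (a, b) h x ha hb
  · exact houseN_zero (b, a) h x hb ha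

lemma hL_isGraphCurve : IsGraphCurve house (hL K) where
  line := hL_finrank
  distinct := by
    intro a b hab
    by_contra hne
    by_cases h : house.Adj a b
    · rcases h with h | h
      · obtain ⟨x, h1, h2⟩ := houseE_diff (K := K) (a, b) h
        simp only at h1 h2
        rw [hab] at h1; exact h2 h1
      · obtain ⟨x, h1, h2⟩ := houseE_diff (K := K) (b, a) h
        simp only at h1 h2
        rw [hab] at h2; exact h2 h1
    · have : hL K a = ⊥ := by
        rw [eq_bot_iff]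
        intro x hx
        rw [Submodule.mem_bot]
        exact nonadj_zero hne h x hx (hab ▸ hx)
      have h2 := hL_finrank (K := K) a
      rw [this, finrank_bot] at h2
      omega
  meet := by
    intro a b hne
    constructor
    · intro h hbot
      have : ∃ x, x ∈ hL K a ∧ x ∈ hL K b ∧ x ≠ 0 := by
        rcases h with h | h
        · exact houseE_meet (K := K) (a, b) h
        · obtain ⟨x, h1, h2, h3⟩ := houseE_meet (K := K) (b, a) h
          exact ⟨x, h2, h1, h3⟩
      obtain ⟨x, h1, h2, h3⟩ := this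
      have : x ∈ hL K a ⊓ hL K b := ⟨h1, h2⟩
      rw [hbot, Submodule.mem_bot] at this
      exact h3 this
    · intro h
      by_contra hadj
      apply h
      rw [eq_bot_iff]
      rintro x ⟨h1, h2⟩
      rw [Submodule.mem_bot]
      exact nonadj_zero hne hadj x h1 h2
  noTriple := by
    intro a b c hab hbc hac
    rw [eq_bot_iff]
    rintro x ⟨⟨h1, h2⟩, h3⟩
    rw [Submodule.mem_bot]
    by_cases e1 : house.Adj a b
    · by_cases e2 : house.Adj b c
      · by_cases e3 : house.Adj a c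
        · have h := house_clique_iff a b c e1 e2 e3
          have hm : ∀ d : Fin 6, d ∈ ({a, b, c} : Finset (Fin 6)) → x ∈ hL K d := by
            intro d hd
            simp only [Finset.mem_insert, Finset.mem_singleton] at hd
            rcases hd with rfl | rfl | rfl
            · exact h1
            · exact h2
            · exact h3
          rw [h] at hm
          exact triangle_zero x (hm 0 (by decide)) (hm 1 (by decide)) (hm 2 (by decide))
        · exact nonadj_zero hac e3 x h1 h3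
      · exact nonadj_zero hbc e2 x h2 h3
    · exact nonadj_zero hab e1 x h1 h2
  spans := by
    rw [eq_top_iff]
    intro x _
    have h0 : (![x 0, x 1, 0, 0, 0] : Fin 5 → K) ∈ ⨆ v, hL K v :=
      Submodule.mem_iSup_of_mem 0 ((memL0 _).2 (by simp))
    have h3 : (![0, 0, x 2, x 3, 0] : Fin 5 → K) ∈ ⨆ v, hL K v :=
      Submodule.mem_iSup_of_mem 3 ((memL3 _).2 (by simp))
    have h5 : (![0, 0, 0, 0, x 4] : Fin 5 → K) ∈ ⨆ v, hL K v :=
      Submodule.mem_iSup_of_mem 5 ((memL5 _).2 (by simp))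
    have : x = ![x 0, x 1, 0, 0, 0] + ![0, 0, x 2, x 3, 0] + ![0, 0, 0, 0, x 4] := by
      ext i; fin_cases i <;> simp
    rw [this]
    exact Submodule.add_mem _ (Submodule.add_mem _ h0 h3) h5

/-! ### quadrics in the ideal -/

lemma eval_linear {N : ℕ} (m : MvPolynomial (Fin N) K) (hm : m.IsHomogeneous 1) (a b c : K)
    (u v w : Fin N → K) :
    eval (a • u + b • v + c • w) m = a * eval u m + b * eval v m + c * eval w m := by
  have : m ∈ homogeneousSubmodule (Fin N) K 1 := hm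
  rw [homogeneousSubmodule_one_eq_span_X] at this
  induction this using Submodule.span_induction with
  | mem x hx => obtain ⟨i, rfl⟩ := hx; simp
  | zero => simp
  | add x y _ _ h1 h2 =>
    rw [map_add, map_add, map_add, map_add]
    have hx := h1 (by
      have := ‹x ∈ Submodule.span K _›
      rw [← homogeneousSubmodule_one_eq_span_X] at this; exact this)
    have hy := h2 (by
      have := ‹y ∈ Submodule.span K _›
      rw [← homogeneousSubmodule_one_eq_span_X] at this; exact this)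
    rw [hx, hy]; ring
  | smul r x _ h1 =>
    have hx := h1 (by
      have := ‹x ∈ Submodule.span K _›
      rw [← homogeneousSubmodule_one_eq_span_X] at this; exact this)
    simp only [smul_eval, hx]; ring

end Q37.GraphCurve
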