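import Pool.Agent.Q37.GraphCurve.Wedge

/-!
The Koszul differential in terms of complements: signs.
-/

open MvPolynomial

namespace Q37.GraphCurve

universe u

variable {K : Type u} [Field K] {N : ℕ}

/-- sum of the elements -/
def fs (B : Finset (Fin N)) : ℕ := ∑ i ∈ B, (i : ℕ)

/-- complement form of a chain -/
noncomputable def hh (f : Finset (Fin N) → MvPolynomial (Fin N) K) (B : Finset (Fin N)) :
    MvPolynomial (Fin N) K := (-1) ^ fs B * f Bᶜ

lemma card_filter_add (B : Finset (Fin N)) (t : Fin N) :
    (Bᶜ.filter (· < t)).card + (B.filter (· < t)).card = (t : ℕ) := by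
  have h1 : (Bᶜ.filter (· < t)) ∪ (B.filter (· < t)) = Finset.univ.filter (· < t) := by
    rw [← Finset.filter_union, Finset.union_comm, Finset.union_compl]
  have h2 : Disjoint (Bᶜ.filter (· < t)) (B.filter (· < t)) := by
    apply Finset.disjoint_filter_filter
    exact disjoint_compl_left
  rw [← Finset.card_union_of_disjoint h2, h1]
  have : Finset.univ.filter (· < t) = Finset.Iio t := by ext; simp
  rw [this, Fin.card_Iio]

lemma koszulD_compl (f : Finset (Fin N) → MvPolynomial (Fin N) K) (B : Finset (Fin N)) :
    (-1) ^ fs B * koszulD f Bᶜ =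
      ∑ t ∈ B, (-1) ^ (B.filter (· < t)).card * X t * hh f (B.erase t) := by
  unfold koszulD hh
  rw [Finset.mul_sum]
  have hB : (Finset.univ \ Bᶜ : Finset (Fin N)) = B := by
    rw [← Finset.compl_eq_univ_sdiff, compl_compl]
  rw [hB]
  refine Finset.sum_congr rfl fun t ht => ?_
  have h1 : insert t Bᶜ = (B.erase t)ᶜ := by rw [Finset.compl_erase]
  have h2 : fs B = fs (B.erase t) + t := by
    unfold fs
    rw [Finset.sum_erase_add _ _ ht]
  have h3 := card_filter_add B t
  rw [h1, h2, ← h3]
  have h4 : ((-1 : MvPolynomial (Fin N) K)) ^ (fs (B.erase t) + ((Bᶜ.filter (· < t)).card + (B.filter (· < t)).card))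
      * (-1) ^ (Bᶜ.filter (· < t)).card = (-1) ^ (B.filter (· < t)).card * (-1) ^ fs (B.erase t) := by
    rw [pow_add, pow_add]
    have : ((-1 : MvPolynomial (Fin N) K)) ^ (Bᶜ.filter (· < t)).card * (-1) ^ (Bᶜ.filter (· < t)).card = 1 := by
      rw [← mul_pow]; simp
    linear_combination ((-1 : MvPolynomial (Fin N) K)) ^ fs (B.erase t) * (-1) ^ (B.filter (· < t)).card * this
  linear_combination (X t * f (B.erase t)ᶜ) * h4

lemma koszulD_three (f : Finset (Fin N) → MvPolynomial (Fin N) K) {a b c : Fin N} (hab : a < b)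
    (hbc : b < c) : (-1) ^ fs {a, b, c} * koszulD f ({a, b, c} : Finset (Fin N))ᶜ =
      X a * hh f {b, c} - X b * hh f {a, c} + X c * hh f {a, b} := by
  have hac : a < c := hab.trans hbc
  rw [koszulD_compl]
  rw [Finset.sum_insert (by simp [hab.ne, hac.ne]), Finset.sum_insert (by simp [hbc.ne]),
    Finset.sum_singleton]
  have e1 : ({a, b, c} : Finset (Fin N)).erase a = {b, c} := by
    rw [Finset.erase_insert]; simp [hab.ne, hac.ne]
  have e2 : ({a, b, c} : Finset (Fin N)).erase b = {a, c} := by
    ext x; simp only [Finset.mem_erase, Finset.mem_insert, Finset.mem_singleton]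
    constructor
    · rintro ⟨h1, h2 | h2 | h2⟩
      · exact Or.inl h2
      · exact absurd h2 h1
      · exact Or.inr h2
    · rintro (h | h)
      · rw [h]; exact ⟨hab.ne, Or.inl rfl⟩
      · rw [h]; exact ⟨hbc.ne', Or.inr (Or.inr rfl)⟩
  have e3 : ({a, b, c} : Finset (Fin N)).erase c = {a, b} := by
    ext x; simp only [Finset.mem_erase, Finset.mem_insert, Finset.mem_singleton]
    constructor
    · rintro ⟨h1, h2 | h2 | h2⟩
      · exact Or.inl h2
      · exact Or.inr h2
      · exact absurd h2 h1
    · rintro (h | h)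
      · rw [h]; exact ⟨hac.ne, Or.inl rfl⟩
      · rw [h]; exact ⟨hbc.ne, Or.inr (Or.inl rfl)⟩
  have f1 : (({a, b, c} : Finset (Fin N)).filter (· < a)).card = 0 := by
    rw [Finset.card_eq_zero, Finset.filter_eq_empty_iff]
    intro x hx
    simp only [Finset.mem_insert, Finset.mem_singleton] at hx
    rcases hx with rfl | rfl | rfl
    · exact lt_irrefl _
    · exact not_lt.2 hab.le
    · exact not_lt.2 hac.le
  have f2 : (({a, b, c} : Finset (Fin N)).filter (· < b)).card = 1 := by
    rw [Finset.card_eq_one]
    refine ⟨a, ?_⟩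
    ext x
    simp only [Finset.mem_filter, Finset.mem_insert, Finset.mem_singleton]
    constructor
    · rintro ⟨h1 | h1 | h1, h2⟩
      · exact h1
      · rw [h1] at h2; exact absurd h2 (lt_irrefl _)
      · rw [h1] at h2; exact absurd h2 (not_lt.2 hbc.le)
    · rintro h; rw [h]; exact ⟨Or.inl rfl, hab⟩
  have f3 : (({a, b, c} : Finset (Fin N)).filter (· < c)).card = 2 := by
    have : (({a, b, c} : Finset (Fin N)).filter (· < c)) = {a, b} := by
      ext x
      simp only [Finset.mem_filter, Finset.mem_insert, Finset.mem_singleton]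
      constructor
      · rintro ⟨h1 | h1 | h1, h2⟩
        · exact Or.inl h1
        · exact Or.inr h1
        · rw [h1] at h2; exact absurd h2 (lt_irrefl _)
      · rintro (h | h)
        · rw [h]; exact ⟨Or.inl rfl, hac⟩
        · rw [h]; exact ⟨Or.inr (Or.inl rfl), hbc⟩
    rw [this, Finset.card_pair hab.ne]
  rw [e1, e2, e3, f1, f2, f3]
  ring

lemma koszulD_two (f : Finset (Fin N) → MvPolynomial (Fin N) K) {a b : Fin N} (hab : a < b) :
    (-1) ^ fs {a, b} * koszulD f ({a, b} : Finset (Fin N))ᶜ =
      X a * hh f {b} - X b * hh f {a} := by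
  rw [koszulD_compl]
  rw [Finset.sum_insert (by simp [hab.ne]), Finset.sum_singleton]
  have e1 : ({a, b} : Finset (Fin N)).erase a = {b} := by
    rw [Finset.erase_insert]; simp [hab.ne]
  have e2 : ({a, b} : Finset (Fin N)).erase b = {a} := by
    rw [Finset.pair_comm, Finset.erase_insert]; simp [hab.ne']
  have f1 : (({a, b} : Finset (Fin N)).filter (· < a)).card = 0 := by
    rw [Finset.card_eq_zero, Finset.filter_eq_empty_iff]
    intro x hx
    simp only [Finset.mem_insert, Finset.mem_singleton] at hx
    rcases hx with rfl | rfl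
    · exact lt_irrefl _
    · exact not_lt.2 hab.le
  have f2 : (({a, b} : Finset (Fin N)).filter (· < b)).card = 1 := by
    rw [Finset.card_eq_one]
    refine ⟨a, ?_⟩
    ext x
    simp only [Finset.mem_filter, Finset.mem_insert, Finset.mem_singleton]
    constructor
    · rintro ⟨h1 | h1, h2⟩
      · exact h1
      · rw [h1] at h2; exact absurd h2 (lt_irrefl _)
    · rintro h; rw [h]; exact ⟨Or.inl rfl, hab⟩
  rw [e1, e2, f1, f2]
  ring

/-- the skew matrix of linear forms of a chain supported in codegree two -/
noncomputable def Am (f : Finset (Fin N) → MvPolynomial (Fin N) K) (q : Fin N → K)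
    (a b : Fin N) : K :=
  if a < b then eval q (hh f {a, b}) else if b < a then -eval q (hh f {b, a}) else 0

lemma Am_lt (f : Finset (Fin N) → MvPolynomial (Fin N) K) (q : Fin N → K)
    {a b : Fin N} (h : a < b) : Am f q a b = eval q (hh f {a, b}) := if_pos h

lemma Am_skew (f : Finset (Fin N) → MvPolynomial (Fin N) K) (q : Fin N → K) (a b : Fin N) :
    Am f q a b = - Am f q b a := by
  unfold Am
  rcases lt_trichotomy a b with h | h | h
  · rw [if_pos h, if_neg (not_lt.2 h.le), if_pos h, neg_neg]
  · subst h; simp
  · rw [if_neg (not_lt.2 h.le), if_pos h, if_pos h]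

lemma Am_self (f : Finset (Fin N) → MvPolynomial (Fin N) K) (q : Fin N → K) (a : Fin N) :
    Am f q a a = 0 := by simp [Am]

lemma hh_isHomogeneous {f : Finset (Fin N) → MvPolynomial (Fin N) K} {e : ℕ}
    (hf : ∀ T, (f T).IsHomogeneous e) (B : Finset (Fin N)) : (hh f B).IsHomogeneous e := by
  unfold hh
  have h1 : ((-1 : MvPolynomial (Fin N) K) ^ fs B).IsHomogeneous 0 := by
    have : ((-1 : MvPolynomial (Fin N) K)).IsHomogeneous 0 := by
      have := isHomogeneous_C (Fin N) (-1 : K)
      simpa using this
    simpa using this.pow (fs B)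
  simpa using h1.mul (hf Bᶜ)

lemma eval_lin_add {m : MvPolynomial (Fin N) K} (hm : m.IsHomogeneous 1) (p q : Fin N → K) :
    eval (p + q) m = eval p m + eval q m := by
  have hm' : m ∈ Submodule.span K (Set.range (X : Fin N → MvPolynomial (Fin N) K)) := by
    rw [← homogeneousSubmodule_one_eq_span_X]; exact hm
  clear hm
  induction hm' using Submodule.span_induction with
  | mem x hx => obtain ⟨i, rfl⟩ := hx; simp
  | zero => simp
  | add x y _ _ h1 h2 => rw [map_add, map_add, map_add, h1, h2]; ring
  | smul r x _ h1 => simp only [smul_eval, h1]; ring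

lemma eval_lin_smul {m : MvPolynomial (Fin N) K} (hm : m.IsHomogeneous 1) (c : K) (q : Fin N → K) :
    eval (c • q) m = c * eval q m := by
  have hm' : m ∈ Submodule.span K (Set.range (X : Fin N → MvPolynomial (Fin N) K)) := by
    rw [← homogeneousSubmodule_one_eq_span_X]; exact hm
  clear hm
  induction hm' using Submodule.span_induction with
  | mem x hx => obtain ⟨i, rfl⟩ := hx; simp
  | zero => simp
  | add x y _ _ h1 h2 => rw [map_add, map_add, h1, h2]; ring
  | smul r x _ h1 => simp only [smul_eval, h1]; ring

lemma Am_add {f : Finset (Fin N) → MvPolynomial (Fin N) K} (hf : ∀ T, (f T).IsHomogeneous 1)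
    (p q : Fin N → K) (a b : Fin N) : Am f (p + q) a b = Am f p a b + Am f q a b := by
  unfold Am
  split_ifs
  · exact eval_lin_add (hh_isHomogeneous hf _) p q
  · rw [eval_lin_add (hh_isHomogeneous hf _) p q]; ring
  · ring

lemma Am_smul {f : Finset (Fin N) → MvPolynomial (Fin N) K} (hf : ∀ T, (f T).IsHomogeneous 1)
    (c : K) (q : Fin N → K) (a b : Fin N) : Am f (c • q) a b = c * Am f q a b := by
  unfold Am
  split_ifs
  · exact eval_lin_smul (hh_isHomogeneous hf _) c q
  · rw [eval_lin_smul (hh_isHomogeneous hf _) c q]; ring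
  · ring

lemma hh_add (f g : Finset (Fin N) → MvPolynomial (Fin N) K) (B : Finset (Fin N)) :
    hh (f + g) B = hh f B + hh g B := by
  unfold hh; rw [Pi.add_apply]; ring

lemma hh_smul (c : K) (f : Finset (Fin N) → MvPolynomial (Fin N) K) (B : Finset (Fin N)) :
    hh (c • f) B = c • hh f B := by
  unfold hh; rw [Pi.smul_apply, mul_smul_comm]

lemma Am_fadd (f g : Finset (Fin N) → MvPolynomial (Fin N) K) (q : Fin N → K) (a b : Fin N) :
    Am (f + g) q a b = Am f q a b + Am g q a b := by
  unfold Am
  simp only [hh_add, map_add]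
  split_ifs <;> ring

lemma Am_fsmul (c : K) (f : Finset (Fin N) → MvPolynomial (Fin N) K) (q : Fin N → K)
    (a b : Fin N) : Am (c • f) q a b = c * Am f q a b := by
  unfold Am
  simp only [hh_smul, smul_eval]
  split_ifs <;> ring

/-- the wedge condition for cycles -/
lemma wedge_of_cycle {V : Type} {L : V → Submodule K (Fin N → K)}
    {f : Finset (Fin N) → MvPolynomial (Fin N) K} (hN : 2 ≤ N)
    (hf : f ∈ cycles (curveIdeal L) (N - 2) 1) (v : V) (q : Fin N → K) (hq : q ∈ L v) :
    ∀ a b c, q a * Am f q b c + q b * Am f q c a + q c * Am f q a b = 0 := by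
  have sorted : ∀ a b c, a < b → b < c →
      q a * Am f q b c + q b * Am f q c a + q c * Am f q a b = 0 := by
    intro a b c hab hbc
    have hac := hab.trans hbc
    have h3 := hf.2.2 ({a, b, c} : Finset (Fin N))ᶜ (by
      rw [Finset.card_compl, Fintype.card_fin]
      have : ({a, b, c} : Finset (Fin N)).card = 3 := by
        rw [Finset.card_insert_of_notMem (by simp [hab.ne, hac.ne]), Finset.card_pair hbc.ne]
      have h4 : ({a, b, c} : Finset (Fin N)).card ≤ N := by
        have := Finset.card_le_univ ({a, b, c} : Finset (Fin N))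
        rwa [Fintype.card_fin] at this
      omega)
    have h4 := h3 v q hq
    have h5 := congrArg (eval q) (koszulD_three f hab hbc)
    rw [map_mul, h4, mul_zero] at h5
    rw [Am_lt f q hbc, Am_skew f q c a, Am_lt f q hac, Am_lt f q hab]
    simp only [map_add, map_sub, map_mul, eval_X] at h5
    linear_combination -h5
  -- all orders
  have perm : ∀ a b c, (a ≤ b → b ≤ c →
      q a * Am f q b c + q b * Am f q c a + q c * Am f q a b = 0) := by
    intro a b c hab hbc
    rcases hab.lt_or_eq with h1 | h1 <;> rcases hbc.lt_or_eq with h2 | h2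
    · exact sorted a b c h1 h2
    · subst h2; rw [Am_self, Am_skew f q b a]; ring
    · subst h1; rw [Am_self, Am_skew f q a c]; ring
    · subst h1; subst h2; rw [Am_self]; ring
  intro a b c
  rcases le_total a b with h1 | h1 <;> rcases le_total b c with h2 | h2 <;>
    rcases le_total a c with h3 | h3
  · exact perm a b c h1 h2
  · exact perm a b c h1 h2
  · have := perm a c b h3 h2
    rw [Am_skew f q c b, Am_skew f q b a, Am_skew f q a c] at this
    linear_combination -this
  · have := perm c a b h3 h1
    linear_combination this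
  · have := perm b a c h1 h3
    rw [Am_skew f q a c, Am_skew f q c b, Am_skew f q b a] at this
    linear_combination -this
  · have := perm b c a h2 h3
    linear_combination this
  · have := perm c b a h2 h1
    rw [Am_skew f q b a, Am_skew f q a c, Am_skew f q c b] at this
    linear_combination -this
  · have := perm c b a h2 h1
    rw [Am_skew f q b a, Am_skew f q a c, Am_skew f q c b] at this
    linear_combination -this

end Q37.GraphCurve
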