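import Pool.Agent.Q37.GraphCurve.Defs

/-!
Compatible families of vectors on a configuration of lines along a 2-degenerate graph are constant
across every edge which is not a bridge.
-/

namespace Q37.GraphCurve

universe u

open Module

section Edges

variable {V : Type} [DecidableEq V] (G : SimpleGraph V) [DecidableRel G.Adj]

/-- number of edges between `A` and `B` (ordered pairs) -/
def ed (A B : Finset V) : ℕ := ((A ×ˢ B).filter (fun p => G.Adj p.1 p.2)).card

lemma ed_comm (A B : Finset V) : ed G A B = ed G B A := by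
  unfold ed
  refine Finset.card_bij (fun p _ => (p.2, p.1)) ?_ ?_ ?_
  · rintro ⟨a, b⟩ h
    simp only [Finset.mem_filter, Finset.mem_product] at h ⊢
    exact ⟨⟨h.1.2, h.1.1⟩, h.2.symm⟩
  · rintro ⟨a, b⟩ _ ⟨c, d⟩ _ h
    simp only [Prod.mk.injEq] at h ⊢
    exact ⟨h.2, h.1⟩
  · rintro ⟨a, b⟩ h
    simp only [Finset.mem_filter, Finset.mem_product] at h
    exact ⟨(b, a), by simp only [Finset.mem_filter, Finset.mem_product]; exact ⟨⟨h.1.2, h.1.1⟩, h.2.symm⟩, rfl⟩

lemma ed_union_left {A A' : Finset V} (h : Disjoint A A') (B : Finset V) :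
    ed G (A ∪ A') B = ed G A B + ed G A' B := by
  unfold ed
  rw [Finset.union_product, Finset.filter_union, Finset.card_union_of_disjoint]
  apply Finset.disjoint_filter_filter
  rw [Finset.disjoint_product]
  exact Or.inl h

lemma ed_union_right (A : Finset V) {B B' : Finset V} (h : Disjoint B B') :
    ed G A (B ∪ B') = ed G A B + ed G A B' := by
  rw [ed_comm, ed_union_left G h, ed_comm G B, ed_comm G B']

lemma ed_pos {A B : Finset V} {x y : V} (hx : x ∈ A) (hy : y ∈ B) (h : G.Adj x y) :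
    1 ≤ ed G A B := by
  unfold ed
  rw [Nat.one_le_iff_ne_zero, Finset.card_ne_zero]
  exact ⟨(x, y), by simp [hx, hy, h]⟩

lemma exists_of_ed_pos {A B : Finset V} (h : 1 ≤ ed G A B) : ∃ x ∈ A, ∃ y ∈ B, G.Adj x y := by
  unfold ed at h
  rw [Nat.one_le_iff_ne_zero, Finset.card_ne_zero] at h
  obtain ⟨⟨x, y⟩, hp⟩ := h
  simp only [Finset.mem_filter, Finset.mem_product] at hp
  exact ⟨x, hp.1.1, y, hp.1.2, hp.2⟩

lemma ed_self_singleton (v : V) : ed G {v} {v} = 0 := by
  unfold ed
  rw [Finset.card_eq_zero, Finset.filter_eq_empty_iff]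
  rintro ⟨a, b⟩ h
  simp only [Finset.mem_product, Finset.mem_singleton] at h
  rw [h.1, h.2]
  exact G.irrefl

lemma ed_split {A B : Finset V} (h : Disjoint A B) :
    ed G (A ∪ B) (A ∪ B) = ed G A A + ed G B B + 2 * ed G A B := by
  rw [ed_union_left G h, ed_union_right G A h, ed_union_right G B h, ed_comm G B A]
  ring

/-- `S` is the disjoint union of the nonempty sets `A`, `B` -/
structure Cut (S A B : Finset V) : Prop where
  un : A ∪ B = S
  dis : Disjoint A B
  ne1 : A.Nonempty
  ne2 : B.Nonempty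

variable {G}

lemma Cut.symm {S A B : Finset V} (h : Cut S A B) : Cut S B A :=
  ⟨by rw [Finset.union_comm]; exact h.un, h.dis.symm, h.ne2, h.ne1⟩

lemma Cut.sub1 {S A B : Finset V} (h : Cut S A B) : A ⊆ S := by
  rw [← h.un]; exact Finset.subset_union_left

lemma Cut.sub2 {S A B : Finset V} (h : Cut S A B) : B ⊆ S := h.symm.sub1

lemma Cut.card {S A B : Finset V} (h : Cut S A B) : S.card = A.card + B.card := by
  rw [← h.un, Finset.card_union_of_disjoint h.dis]

lemma Cut.lt1 {S A B : Finset V} (h : Cut S A B) : A.card < S.card := by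
  have := h.card
  have := h.ne2.card_pos
  omega

lemma Cut.mem {S A B : Finset V} (h : Cut S A B) {x : V} (hx : x ∈ S) : x ∈ A ∨ x ∈ B := by
  rw [← h.un, Finset.mem_union] at hx; exact hx

lemma Cut.not_mem {S A B : Finset V} (h : Cut S A B) {x : V} (hx : x ∈ A) : x ∉ B :=
  fun hx' => (Finset.disjoint_left.1 h.dis hx) hx'

lemma ext0 {S A B A1 A2 : Finset V} (h : Cut S A B) (h' : Cut A A1 A2) (h0 : ed G A2 B = 0) :
    Cut S (A1 ∪ B) A2 ∧ ed G (A1 ∪ B) A2 = ed G A1 A2 := by
  have d1 : Disjoint A1 B := Finset.disjoint_of_subset_left h'.sub1 h.dis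
  have d2 : Disjoint A2 B := Finset.disjoint_of_subset_left h'.sub2 h.dis
  refine ⟨⟨?_, ?_, ?_, h'.ne2⟩, ?_⟩
  · rw [← h.un, ← h'.un, Finset.union_assoc, Finset.union_assoc, Finset.union_comm B A2]
  · rw [Finset.disjoint_union_left]; exact ⟨h'.dis, d2.symm⟩
  · exact h'.ne1.mono Finset.subset_union_left
  · rw [ed_union_left G d1, ed_comm G B A2, h0, add_zero]

lemma ext1 {S A B A1 A2 : Finset V} (h : Cut S A B) (h1 : ed G A B = 1) {x y : V} (hy : y ∈ B)
    (hxy : G.Adj x y) (h' : Cut A A1 A2) (hx : x ∈ A1) :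
    Cut S (A1 ∪ B) A2 ∧ ed G (A1 ∪ B) A2 = ed G A1 A2 := by
  refine ext0 h h' ?_
  have h2 := ed_pos G hx hy hxy
  rw [← h'.un, ed_union_left G h'.dis] at h1
  omega

end Edges

section Lines

variable {K : Type u} [Field K] {U : Type u} [AddCommGroup U] [Module K U] [FiniteDimensional K U]
variable {V : Type} [DecidableEq V] (G : SimpleGraph V) [DecidableRel G.Adj]
  (L : V → Submodule K U)

/-- The hypotheses on the configuration of lines. -/
structure Config : Prop where
  line : ∀ v, finrank K (L v) = 2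
  meet : ∀ u v, G.Adj u v → L u ⊓ L v ≠ ⊥
  noTriple : ∀ u v w, u ≠ v → v ≠ w → u ≠ w → L u ⊓ L v ⊓ L w = ⊥
  degen : ∀ S : Finset V, S.Nonempty → ∃ v ∈ S, ed G {v} S ≤ 2

/-- The span of the lines of `S` has the expected dimension `2|S| - m(S)`. -/
def Good (S : Finset V) : Prop := 2 * finrank K (S.sup L : Submodule K U) + ed G S S = 4 * S.card

variable {G L}

lemma finrank_sup_union (A B : Finset V) :
    finrank K ((A ∪ B).sup L : Submodule K U) +
      finrank K ((A.sup L ⊓ B.sup L : Submodule K U)) =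
    finrank K (A.sup L : Submodule K U) + finrank K (B.sup L : Submodule K U) := by
  rw [Finset.sup_union]
  exact Submodule.finrank_sup_add_finrank_inf_eq _ _

lemma finrank_pos_of_ne_bot {M : Submodule K U} (h : M ≠ ⊥) : 1 ≤ finrank K M := by
  rw [Nat.one_le_iff_ne_zero]
  intro h0
  exact h (Submodule.finrank_eq_zero.1 h0)

lemma finrank_two_of {M A B : Submodule K U} (hA : A ≤ M) (hB : B ≤ M) (hAB : A ⊓ B = ⊥)
    (ha : A ≠ ⊥) (hb : B ≠ ⊥) : 2 ≤ finrank K M := by
  have h1 := Submodule.finrank_sup_add_finrank_inf_eq A B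
  rw [hAB, finrank_bot, add_zero] at h1
  have h2 := Submodule.finrank_mono (sup_le hA hB)
  have h3 := finrank_pos_of_ne_bot ha
  have h4 := finrank_pos_of_ne_bot hb
  omega

/-- the intersection of a line with the span of the others contains the nodes -/
lemma node_dim (hC : Config G L) (v : V) (S : Finset V) (hv : v ∉ S) (hk : ed G {v} S ≤ 2) :
    ed G {v} S ≤ finrank K ((S.sup L ⊓ L v : Submodule K U)) := by
  have hle : ∀ u ∈ S, L u ⊓ L v ≤ S.sup L ⊓ L v := fun u hu =>
    inf_le_inf_right _ (Finset.le_sup hu)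
  rcases Nat.lt_or_ge (ed G {v} S) 1 with h0 | h1
  · omega
  rcases Nat.lt_or_ge (ed G {v} S) 2 with h2 | h2
  · have h3 : ed G {v} S = 1 := by omega
    obtain ⟨x, hx, y, hy, hxy⟩ := exists_of_ed_pos G h1
    rw [Finset.mem_singleton] at hx; subst hx
    rw [h3]
    refine (finrank_pos_of_ne_bot (hC.meet y x hxy.symm)).trans (Submodule.finrank_mono (hle y hy))
  · have h3 : ed G {v} S = 2 := by omega
    rw [h3]
    have h4 : 1 < (({v} ×ˢ S).filter (fun p => G.Adj p.1 p.2)).card := by
      change 1 < ed G {v} S; omega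
    rw [Finset.one_lt_card] at h4
    obtain ⟨⟨a, b⟩, hp, ⟨c, d⟩, hq, hne⟩ := h4
    simp only [Finset.mem_filter, Finset.mem_product, Finset.mem_singleton] at hp hq
    obtain ⟨⟨rfl, hb⟩, hab⟩ := hp
    obtain ⟨⟨rfl, hd⟩, hcd⟩ := hq
    have hbd : b ≠ d := fun h => hne (by rw [h])
    refine finrank_two_of (hle b hb) (hle d hd) ?_ (hC.meet b _ hab.symm) (hC.meet d _ hcd.symm)
    have := hC.noTriple b d c hbd hcd.ne.symm hab.ne.symm
    rw [eq_bot_iff] at this ⊢
    refine le_trans ?_ this
    intro z hz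
    exact ⟨⟨hz.1.1, hz.2.1⟩, hz.1.2⟩

lemma upper (hC : Config G L) : ∀ S : Finset V,
    2 * finrank K (S.sup L : Submodule K U) + ed G S S ≤ 4 * S.card := by
  intro S
  induction hn : S.card generalizing S with
  | zero =>
    rw [Finset.card_eq_zero] at hn
    subst hn
    simp [ed]
  | succ n ih =>
    have hne : S.Nonempty := Finset.card_pos.1 (by omega)
    obtain ⟨v, hv, hk⟩ := hC.degen S hne
    have hS : {v} ∪ S.erase v = S := by
      rw [← Finset.insert_eq, Finset.insert_erase hv]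
    have hd : Disjoint {v} (S.erase v) := by simp
    have hk' : ed G {v} (S.erase v) = ed G {v} S := by
      conv_rhs => rw [← hS]
      rw [ed_union_right G _ hd, ed_self_singleton, zero_add]
    have h1 := ih (S.erase v) (by rw [Finset.card_erase_of_mem hv]; omega)
    have h2 := finrank_sup_union (K := K) (L := L) {v} (S.erase v)
    rw [hS, Finset.sup_singleton, hC.line v, inf_comm] at h2
    have h3 := node_dim hC v (S.erase v) (Finset.notMem_erase _ _) (by omega)
    have h4 := ed_split G hd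
    rw [hS, ed_self_singleton] at h4
    omega

lemma good_cut (hC : Config G L) {S A B : Finset V} (hS : Good G L S) (h : Cut S A B)
    (he : ed G A B ≤ 1) : Good G L A ∧ Good G L B ∧
      (ed G A B = 1 → finrank K ((A.sup L ⊓ B.sup L : Submodule K U)) ≤ 1) := by
  have h1 := upper hC A
  have h2 := upper hC B
  have h3 := finrank_sup_union (K := K) (L := L) A B
  have h4 := ed_split G h.dis
  rw [h.un] at h3 h4
  have h5 := h.card
  unfold Good at *
  rcases Nat.lt_or_ge (ed G A B) 1 with h0 | h0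
  · refine ⟨by omega, by omega, by omega⟩
  · obtain ⟨x, hx, y, hy, hxy⟩ := exists_of_ed_pos G h0
    have h6 : 1 ≤ finrank K ((A.sup L ⊓ B.sup L : Submodule K U)) :=
      (finrank_pos_of_ne_bot (hC.meet x y hxy)).trans
        (Submodule.finrank_mono (inf_le_inf (Finset.le_sup hx) (Finset.le_sup hy)))
    refine ⟨by omega, by omega, by omega⟩

lemma good_erase (hC : Config G L) {S : Finset V} (hS : Good G L S) {v : V} (hv : v ∈ S)
    (he : ed G {v} (S.erase v) = 2) : Good G L (S.erase v) := by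
  have hS' : {v} ∪ S.erase v = S := by
    rw [← Finset.insert_eq, Finset.insert_erase hv]
  have hd : Disjoint {v} (S.erase v) := by simp
  have h2 := finrank_sup_union (K := K) (L := L) {v} (S.erase v)
  rw [hS', Finset.sup_singleton, hC.line v, inf_comm] at h2
  have h3 := node_dim hC v (S.erase v) (Finset.notMem_erase _ _) (by omega)
  have h4 := ed_split G hd
  rw [hS', ed_self_singleton] at h4
  have h5 : finrank K (((S.erase v).sup L ⊓ L v : Submodule K U)) ≤ 2 := by
    rw [← hC.line v]; exact Submodule.finrank_mono inf_le_right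
  have h6 := Finset.card_erase_of_mem hv
  have h7 : 1 ≤ S.card := Finset.card_pos.2 ⟨v, hv⟩
  unfold Good at *
  omega

/-- compatibility of a family of vectors at the nodes -/
def Compat (G : SimpleGraph V) (L : V → Submodule K U) (Q : V → U) : Prop :=
  ∀ x y, G.Adj x y → Q x - Q y ∈ L x ⊓ L y

lemma diff_mem {Q : V → U} (hQ : Compat G L Q) {S : Finset V}
    (hconn : ∀ A B, Cut S A B → 1 ≤ ed G A B) {u : V} (hu : u ∈ S) :
    ∀ z ∈ S, Q z - Q u ∈ S.sup L := by
  classical
  by_contra hcon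
  push_neg at hcon
  obtain ⟨z, hz, hz'⟩ := hcon
  set A := S.filter (fun z => Q z - Q u ∈ S.sup L) with hA
  set B := S.filter (fun z => ¬ Q z - Q u ∈ S.sup L) with hB
  have hcut : Cut S A B := ⟨Finset.filter_union_filter_not_eq _ _, Finset.disjoint_filter_filter_not _ _ _,
    ⟨u, by simp [hA, hu]⟩, ⟨z, by simp only [hB, Finset.mem_filter]; exact ⟨hz, hz'⟩⟩⟩
  obtain ⟨x, hx, y, hy, hxy⟩ := exists_of_ed_pos G (hconn A B hcut)
  rw [hA, Finset.mem_filter] at hx
  rw [hB, Finset.mem_filter] at hy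
  apply hy.2
  have h1 := hQ y x hxy.symm
  have h2 : Q y - Q x ∈ S.sup L := (Finset.le_sup hy.1 : L y ≤ S.sup L) h1.1
  have : Q y - Q u = (Q y - Q x) + (Q x - Q u) := by abel
  rw [this]
  exact Submodule.add_mem _ h2 hx.2

lemma const_of {Q : V → U} {S : Finset V}
    (hconn : ∀ A B, Cut S A B → 1 ≤ ed G A B) {u : V} (hu : u ∈ S)
    (hloc : ∀ x ∈ S, ∀ y ∈ S, G.Adj x y → Q x = Q y) :
    ∀ z ∈ S, Q z = Q u := by
  classical
  by_contra hcon
  push_neg at hcon
  obtain ⟨z, hz, hz'⟩ := hcon
  set A := S.filter (fun z => Q z = Q u) with hA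
  set B := S.filter (fun z => ¬ Q z = Q u) with hB
  have hcut : Cut S A B := ⟨Finset.filter_union_filter_not_eq _ _, Finset.disjoint_filter_filter_not _ _ _,
    ⟨u, by simp [hA, hu]⟩, ⟨z, by simp only [hB, Finset.mem_filter]; exact ⟨hz, hz'⟩⟩⟩
  obtain ⟨x, hx, y, hy, hxy⟩ := exists_of_ed_pos G (hconn A B hcut)
  rw [hA, Finset.mem_filter] at hx
  rw [hB, Finset.mem_filter] at hy
  apply hy.2
  rw [← hloc x hx.1 y hy.1 hxy, hx.2]

/-- `xy` is a bridge of `G[S]` (cut form) -/
def BridgeIn (G : SimpleGraph V) [DecidableRel G.Adj] (S : Finset V) (x y : V) : Prop :=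
  ∃ A B, Cut S A B ∧ x ∈ A ∧ y ∈ B ∧ ed G A B = 1

lemma BridgeIn.symm {S : Finset V} {x y : V} (h : BridgeIn G S x y) : BridgeIn G S y x := by
  obtain ⟨A, B, h1, h2, h3, h4⟩ := h
  exact ⟨B, A, h1.symm, h3, h2, by rw [ed_comm]; exact h4⟩

/-- relation lemma -/
lemma relation (hC : Config G L) {Q : V → U} (hQ : Compat G L Q) (n : ℕ)
    (hCn : ∀ S : Finset V, S.card ≤ n → Good G L S → ∀ x ∈ S, ∀ y ∈ S, G.Adj x y →
      Q x = Q y ∨ BridgeIn G S x y) :
    ∀ (k : ℕ) (S : Finset V), S.card = k → k ≤ n → Good G L S →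
      ∀ u ∈ S, ∀ w ∈ S, ∀ p ∈ L u, ∀ q ∈ L w, Q u - Q w = p - q →
      (∀ A B, Cut S A B → 1 ≤ ed G A B) →
      (∀ A B, Cut S A B → ed G A B = 1 → (u ∈ A ↔ w ∉ A)) →
      (∀ x ∈ S, ∀ y ∈ S, G.Adj x y → p ∈ L x ⊓ L y → p = 0) →
      (∀ x ∈ S, ∀ y ∈ S, G.Adj x y → q ∈ L x ⊓ L y → q = 0) →
      (p = q → p = 0) →
      p = 0 ∧ q = 0 ∧ ∀ z ∈ S, Q z = Q u := by
  intro k
  induction k using Nat.strong_induction_on with
  | _ k ih =>
  intro S hSk hkn hS u hu w hw p hp q hq hpq hconn hsep hpn hqn hpq0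
  by_cases hcut : ∃ A B, Cut S A B ∧ ed G A B = 1
  · -- split
    obtain ⟨A, B, hAB, hone, huA⟩ : ∃ A B, Cut S A B ∧ ed G A B = 1 ∧ u ∈ A := by
      obtain ⟨A, B, h1, h2⟩ := hcut
      rcases h1.mem hu with h | h
      · exact ⟨A, B, h1, h2, h⟩
      · exact ⟨B, A, h1.symm, by rw [ed_comm]; exact h2, h⟩
    have hwA : w ∉ A := (hsep A B hAB hone).1 huA
    have hwB : w ∈ B := (hAB.mem hw).resolve_left hwA
    obtain ⟨x, hx, y, hy, hxy⟩ := exists_of_ed_pos G (show 1 ≤ ed G A B by omega)
    obtain ⟨gA, gB, hdim⟩ := good_cut hC hS hAB (by omega)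
    have hdim := hdim hone
    have hAB1 : ed G B A = 1 := by rw [ed_comm]; exact hone
    -- connectivity of A and B
    have connA : ∀ A1 A2, Cut A A1 A2 → 1 ≤ ed G A1 A2 := by
      intro A1 A2 h'
      rcases h'.mem hx with hx1 | hx2
      · obtain ⟨c, e⟩ := ext1 hAB hone hy hxy h' hx1
        rw [← e]; exact hconn _ _ c
      · obtain ⟨c, e⟩ := ext1 hAB hone hy hxy h'.symm hx2
        rw [ed_comm, ← e]; exact hconn _ _ c
    have connB : ∀ A1 A2, Cut B A1 A2 → 1 ≤ ed G A1 A2 := by
      intro A1 A2 h'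
      rcases h'.mem hy with hx1 | hx2
      · obtain ⟨c, e⟩ := ext1 hAB.symm hAB1 hx hxy.symm h' hx1
        rw [← e]; exact hconn _ _ c
      · obtain ⟨c, e⟩ := ext1 hAB.symm hAB1 hx hxy.symm h'.symm hx2
        rw [ed_comm, ← e]; exact hconn _ _ c
    have sepA : ∀ A1 A2, Cut A A1 A2 → ed G A1 A2 = 1 → (u ∈ A1 ↔ x ∉ A1) := by
      intro A1 A2 h' h1
      rcases h'.mem hx with hx1 | hx2
      · obtain ⟨c, e⟩ := ext1 hAB hone hy hxy h' hx1
        have := hsep _ _ c (by rw [e, h1])
        have hu1 : u ∉ A1 ∪ B := fun h => (this.1 h) (Finset.mem_union_right _ hwB)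
        constructor
        · intro h; exact absurd (Finset.mem_union_left _ h) hu1
        · intro h; exact absurd hx1 h
      · obtain ⟨c, e⟩ := ext1 hAB hone hy hxy h'.symm hx2
        have := hsep _ _ c (by rw [e, ed_comm, h1])
        have hu1 : u ∉ A2 ∪ B := fun h => (this.1 h) (Finset.mem_union_right _ hwB)
        constructor
        · intro _; exact h'.symm.not_mem hx2
        · intro _
          exact (h'.mem huA).resolve_right (fun h => hu1 (Finset.mem_union_left _ h))
    have sepB : ∀ A1 A2, Cut B A1 A2 → ed G A1 A2 = 1 → (w ∈ A1 ↔ y ∉ A1) := by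
      intro A1 A2 h' h1
      rcases h'.mem hy with hx1 | hx2
      · obtain ⟨c, e⟩ := ext1 hAB.symm hAB1 hx hxy.symm h' hx1
        have := hsep _ _ c (by rw [e, h1])
        have hu1 : w ∉ A1 ∪ A := this.1 (Finset.mem_union_right _ huA)
        constructor
        · intro h; exact absurd (Finset.mem_union_left _ h) hu1
        · intro h; exact absurd hx1 h
      · obtain ⟨c, e⟩ := ext1 hAB.symm hAB1 hx hxy.symm h'.symm hx2
        have := hsep _ _ c (by rw [e, ed_comm, h1])
        have hu1 : w ∉ A2 ∪ A := this.1 (Finset.mem_union_right _ huA)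
        constructor
        · intro _; exact h'.symm.not_mem hx2
        · intro _
          exact (h'.mem hwB).resolve_right (fun h => hu1 (Finset.mem_union_left _ h))
    -- the common vector
    have hxyQ := hQ x y hxy
    set D := Q u - Q x - p with hD
    have hDA : D ∈ A.sup L := by
      refine Submodule.sub_mem _ (diff_mem hQ connA hx u huA) ?_
      exact (Finset.le_sup huA : L u ≤ A.sup L) hp
    have hDB : D ∈ B.sup L := by
      have e1 : D = (Q w - Q y) - q - (Q x - Q y) := by
        have : Q u = Q w + (p - q) := by rw [← hpq]; abel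
        rw [hD, this]; abel
      rw [e1]
      refine Submodule.sub_mem _ (Submodule.sub_mem _ (diff_mem hQ connB hy w hwB) ?_) ?_
      · exact (Finset.le_sup hwB : L w ≤ B.sup L) hq
      · exact (Finset.le_sup hy : L y ≤ B.sup L) hxyQ.2
    have hle : L x ⊓ L y ≤ A.sup L ⊓ B.sup L := inf_le_inf (Finset.le_sup hx) (Finset.le_sup hy)
    have heq : L x ⊓ L y = A.sup L ⊓ B.sup L := by
      refine Submodule.eq_of_le_of_finrank_le hle (hdim.trans ?_)
      exact finrank_pos_of_ne_bot (hC.meet x y hxy)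
    have hDxy : D ∈ L x ⊓ L y := by rw [heq]; exact ⟨hDA, hDB⟩
    have hxS : x ∈ S := hAB.sub1 hx
    have hyS : y ∈ S := hAB.sub2 hy
    have nodeA : ∀ d ∈ L x ⊓ L y, ∀ x' ∈ A, ∀ y' ∈ A, G.Adj x' y' → d ∈ L x' ⊓ L y' → d = 0 := by
      intro d hd x' hx' y' hy' hadj hd'
      have h3 := hC.noTriple x' y' y hadj.ne (fun h => hAB.not_mem hy' (h ▸ hy))
        (fun h => hAB.not_mem hx' (h ▸ hy))
      have : d ∈ L x' ⊓ L y' ⊓ L y := ⟨hd', hd.2⟩
      rw [h3, Submodule.mem_bot] at this
      exact this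
    have nodeB : ∀ d ∈ L x ⊓ L y, ∀ x' ∈ B, ∀ y' ∈ B, G.Adj x' y' → d ∈ L x' ⊓ L y' → d = 0 := by
      intro d hd x' hx' y' hy' hadj hd'
      have h3 := hC.noTriple x' y' x hadj.ne (fun h => hAB.not_mem hx (h ▸ hy'))
        (fun h => hAB.not_mem hx (h ▸ hx'))
      have : d ∈ L x' ⊓ L y' ⊓ L x := ⟨hd', hd.1⟩
      rw [h3, Submodule.mem_bot] at this
      exact this
    obtain ⟨rA1, rA2, rA3⟩ := ih A.card (by rw [← hSk]; exact hAB.lt1) A rfl
      (by have := hAB.lt1; omega) gA u huA x hx p hp (-D)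
      (Submodule.neg_mem _ hDxy.1) (by rw [hD]; abel) connA sepA
      (fun x' hx' y' hy' => hpn x' (hAB.sub1 hx') y' (hAB.sub1 hy'))
      (fun x' hx' y' hy' h1 h2 => by
        have h2' : D ∈ L x' ⊓ L y' := by
          have := Submodule.neg_mem _ h2
          rwa [neg_neg] at this
        rw [nodeA D hDxy x' hx' y' hy' h1 h2', neg_zero])
      (fun h => hpn x hxS y hyS hxy (by rw [h]; exact Submodule.neg_mem _ hDxy))
    have hD0 : D = 0 := neg_eq_zero.1 rA2
    -- second half
    have hQxu : Q x = Q u := rA3 x hx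
    have hrel : Q w - Q y = q - (Q y - Q x) := by
      have e1 : Q u = Q w + (p - q) := by rw [← hpq]; abel
      rw [hQxu, e1, rA1]; abel
    obtain ⟨rB1, rB2, rB3⟩ := ih B.card (by rw [← hSk]; exact hAB.symm.lt1) B rfl
      (by have := hAB.symm.lt1; omega) gB w hwB y hy q hq (Q y - Q x)
      (by
        have := Submodule.neg_mem _ hxyQ.2
        rwa [neg_sub] at this) hrel connB sepB
      (fun x' hx' y' hy' => hqn x' (hAB.sub2 hx') y' (hAB.sub2 hy'))
      (fun x' hx' y' hy' h1 h2 => by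
        refine nodeB _ ?_ x' hx' y' hy' h1 h2
        have := Submodule.neg_mem _ hxyQ
        rwa [neg_sub] at this)
      (fun h => hqn x hxS y hyS hxy (by
        rw [h]
        have := Submodule.neg_mem _ hxyQ
        rwa [neg_sub] at this))
    refine ⟨rA1, rB1, fun z hz => ?_⟩
    rcases hAB.mem hz with hz | hz
    · exact rA3 z hz
    · rw [rB3 z hz, ← rB3 y hy, ← hQxu]
      exact sub_eq_zero.1 rB2
  · -- no bridge
    have hloc : ∀ x ∈ S, ∀ y ∈ S, G.Adj x y → Q x = Q y := by
      intro x hx y hy hxy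
      rcases hCn S (by omega) hS x hx y hy hxy with h | ⟨A, B, h1, h2, h3, h4⟩
      · exact h
      · exact absurd ⟨A, B, h1, h4⟩ hcut
    have hconst := const_of (Q := Q) hconn hu hloc
    have hwu := hconst w hw
    rw [hwu, sub_self] at hpq
    have hpq' : p = q := (sub_eq_zero.1 hpq.symm)
    have hp0 := hpq0 hpq'
    exact ⟨hp0, by rw [← hpq']; exact hp0, hconst⟩

/-- Main claim: constant across edges that are not bridges. -/
theorem main_claim (hC : Config G L) {Q : V → U} (hQ : Compat G L Q) :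
    ∀ (n : ℕ) (S : Finset V), S.card = n → Good G L S → ∀ x ∈ S, ∀ y ∈ S, G.Adj x y →
      Q x = Q y ∨ BridgeIn G S x y := by
  intro n
  induction n using Nat.strong_induction_on with
  | _ n ih =>
  intro S hSn hS x hx y hy hxy
  by_cases hcut : ∃ A B, Cut S A B ∧ ed G A B ≤ 1
  · obtain ⟨A, B, hAB, hle⟩ := hcut
    obtain ⟨gA, gB, -⟩ := good_cut hC hS hAB hle
    have half : ∀ A B, Cut S A B → ed G A B ≤ 1 → Good G L A → x ∈ A → y ∈ A →
        Q x = Q y ∨ BridgeIn G S x y := by
      intro A B hAB hle gA hxA hyA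
      rcases ih A.card (by rw [← hSn]; exact hAB.lt1) A rfl gA x hxA y hyA hxy with h | h
      · exact Or.inl h
      · right
        obtain ⟨A1, A2, h', h1, h2, h3⟩ := h
        have hsum := ed_union_left G h'.dis B
        rw [h'.un] at hsum
        rcases Nat.eq_zero_or_pos (ed G A2 B) with h0 | h0
        · obtain ⟨c, e⟩ := ext0 hAB h' h0
          exact ⟨_, _, c, Finset.mem_union_left _ h1, h2, by rw [e, h3]⟩
        · have h0' : ed G A1 B = 0 := by omega
          obtain ⟨c, e⟩ := ext0 hAB h'.symm h0'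
          exact ⟨_, _, c.symm, h1, Finset.mem_union_left _ h2, by
            rw [ed_comm, e, ed_comm, h3]⟩
    rcases hAB.mem hx with hxA | hxB <;> rcases hAB.mem hy with hyA | hyB
    · exact half A B hAB hle gA hxA hyA
    · right
      have := ed_pos G hxA hyB hxy
      exact ⟨A, B, hAB, hxA, hyB, by omega⟩
    · right
      have := ed_pos G hyA hxB hxy.symm
      exact ⟨B, A, hAB.symm, hxB, hyA, by rw [ed_comm]; omega⟩
    · exact half B A hAB.symm (by rw [ed_comm]; exact hle) gB hxB hyB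
  · push_neg at hcut
    left
    obtain ⟨v, hv, hk⟩ := hC.degen S ⟨x, hx⟩
    have hS' : {v} ∪ S.erase v = S := by
      rw [← Finset.insert_eq, Finset.insert_erase hv]
    have hd : Disjoint {v} (S.erase v) := by simp
    have hk' : ed G {v} (S.erase v) = ed G {v} S := by
      conv_rhs => rw [← hS']
      rw [ed_union_right G _ hd, ed_self_singleton, zero_add]
    have hne : (S.erase v).Nonempty := by
      by_cases h : x = v
      · refine ⟨y, Finset.mem_erase.2 ⟨?_, hy⟩⟩
        rw [← h]; exact hxy.ne.symm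
      · exact ⟨x, Finset.mem_erase.2 ⟨h, hx⟩⟩
    have hcutv : Cut S {v} (S.erase v) := ⟨hS', hd, Finset.singleton_nonempty v, hne⟩
    have h2 := hcut _ _ hcutv
    have hk2 : ed G {v} (S.erase v) = 2 := by omega
    have gS' := good_erase hC hS hv hk2
    -- the two neighbours
    have h4 : (({v} ×ˢ (S.erase v)).filter (fun p => G.Adj p.1 p.2)).card = 2 := hk2
    rw [Finset.card_eq_two] at h4
    obtain ⟨⟨a, b⟩, ⟨c, d⟩, hne2, hset⟩ := h4
    have hab : (a, b) ∈ (({v} ×ˢ (S.erase v)).filter (fun p => G.Adj p.1 p.2)) := by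
      rw [hset]; simp
    have hcd : (c, d) ∈ (({v} ×ˢ (S.erase v)).filter (fun p => G.Adj p.1 p.2)) := by
      rw [hset]; simp
    simp only [Finset.mem_filter, Finset.mem_product, Finset.mem_singleton] at hab hcd
    obtain ⟨⟨ha, hb⟩, hab⟩ := hab
    obtain ⟨⟨hc, hdd⟩, hcd⟩ := hcd
    have hbd : b ≠ d := fun h => hne2 (by rw [ha, hc, h])
    have honly : ∀ z ∈ S.erase v, G.Adj v z → z = b ∨ z = d := by
      intro z hz haz
      have : (v, z) ∈ (({v} ×ˢ (S.erase v)).filter (fun p => G.Adj p.1 p.2)) :=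
        Finset.mem_filter.2 ⟨Finset.mem_product.2 ⟨Finset.mem_singleton_self v, hz⟩, haz⟩
      rw [hset] at this
      simp only [Finset.mem_insert, Finset.mem_singleton, Prod.mk.injEq] at this
      rcases this with h | h
      · exact Or.inl h.2
      · exact Or.inr h.2
    rw [ha] at hab
    rw [hc] at hcd
    have hcutA : ∀ A B, Cut (S.erase v) A B → Cut S ({v} ∪ A) B := by
      intro A B h
      refine ⟨?_, ?_, ⟨v, by simp⟩, h.ne2⟩
      · rw [Finset.union_assoc, h.un, hS']
      · rw [Finset.disjoint_union_left]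
        refine ⟨?_, h.dis⟩
        rw [Finset.disjoint_singleton_left]
        intro hvB
        exact Finset.notMem_erase v S (h.sub2 hvB)
    have hvdis : ∀ A B, Cut (S.erase v) A B → Disjoint {v} A := by
      intro A B h
      rw [Finset.disjoint_singleton_left]
      intro hvA
      exact Finset.notMem_erase v S (h.sub1 hvA)
    have count : ∀ A B, Cut (S.erase v) A B → 2 ≤ ed G {v} B + ed G A B := by
      intro A B h
      have := hcut _ _ (hcutA A B h)
      rw [ed_union_left G (hvdis A B h)] at this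
      omega
    have tot : ∀ A B, Cut (S.erase v) A B → ed G {v} A + ed G {v} B = 2 := by
      intro A B h
      rw [← ed_union_right G _ h.dis, h.un, hk2]
    have hpb := hQ b v hab.symm
    have hqd := hQ d v hcd.symm
    have hvS' : ∀ z ∈ S.erase v, z ≠ v := fun z hz => (Finset.mem_erase.1 hz).1
    obtain ⟨r1, r2, r3⟩ := relation hC hQ (n - 1)
      (fun T hT gT => ih T.card (by have := Finset.card_pos.2 ⟨v, hv⟩; omega) T rfl gT)
      (S.erase v).card (S.erase v) rfl
      (by rw [Finset.card_erase_of_mem hv, hSn]) gS' b hb d hdd (Q b - Q v) hpb.1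
      (Q d - Q v) hqd.1 (by abel)
      (fun A B h => by
        have h1 := count A B h
        have h2 := count B A h.symm
        have h3 := tot A B h
        rw [ed_comm G B A] at h2
        omega)
      (fun A B h hone => by
        have h1 := count A B h
        have h2 := count B A h.symm
        rw [ed_comm G B A] at h2
        obtain ⟨a1, ha1, z1, hz1, hadj1⟩ := exists_of_ed_pos G (show 1 ≤ ed G {v} B by omega)
        obtain ⟨a2, ha2, z2, hz2, hadj2⟩ := exists_of_ed_pos G (show 1 ≤ ed G {v} A by omega)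
        rw [Finset.mem_singleton] at ha1 ha2
        subst ha1
        rw [ha2] at hadj2
        have o1 := honly z1 (h.sub2 hz1) hadj1
        have o2 := honly z2 (h.sub1 hz2) hadj2
        constructor
        · intro hbA hdA
          rcases o1 with o | o
          · exact h.not_mem hbA (o ▸ hz1)
          · exact h.not_mem hdA (o ▸ hz1)
        · intro hdA
          rcases o2 with o | o
          · exact o ▸ hz2
          · exact absurd (o ▸ hz2) hdA)
      (fun x' hx' y' hy' hadj hm => by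
        have h3 := hC.noTriple x' y' v hadj.ne (hvS' y' hy') (hvS' x' hx')
        have : Q b - Q v ∈ L x' ⊓ L y' ⊓ L v := ⟨hm, hpb.2⟩
        rw [h3, Submodule.mem_bot] at this
        exact this)
      (fun x' hx' y' hy' hadj hm => by
        have h3 := hC.noTriple x' y' v hadj.ne (hvS' y' hy') (hvS' x' hx')
        have : Q d - Q v ∈ L x' ⊓ L y' ⊓ L v := ⟨hm, hqd.2⟩
        rw [h3, Submodule.mem_bot] at this
        exact this)
      (fun h => by
        have h3 := hC.noTriple b d v hbd (hvS' d hdd) (hvS' b hb)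
        have : Q b - Q v ∈ L b ⊓ L d ⊓ L v := ⟨⟨hpb.1, by rw [h]; exact hqd.1⟩, hpb.2⟩
        rw [h3, Submodule.mem_bot] at this
        exact this)
    have hQbv : Q b = Q v := sub_eq_zero.1 r1
    have all : ∀ z ∈ S, Q z = Q b := by
      intro z hz
      by_cases hzv : z = v
      · rw [hzv, hQbv]
      · exact r3 z (Finset.mem_erase.2 ⟨hzv, hz⟩)
    rw [all x hx, all y hy]

end Lines

end Q37.GraphCurve
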