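import Pool.Agent.Q37.GraphCurve.Bridges

/-!
Linear algebra on a line: `q ∧ A(q) = 0` for all `q` in a plane `W` implies `A(q) = q ∧ R`;
gluing of linear functionals along a configuration of lines.
-/

namespace Q37.GraphCurve

universe u

open Module

section Wedge

variable {K : Type u} [Field K] {N : ℕ}

/-- a basis of a two-dimensional subspace with dual functionals on the whole space -/
lemma exists_dual_pair (W : Submodule K (Fin N → K)) (hW : finrank K W = 2) :
    ∃ (p₁ p₂ : Fin N → K) (ξ η : (Fin N → K) →ₗ[K] K), p₁ ∈ W ∧ p₂ ∈ W ∧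
      ξ p₁ = 1 ∧ ξ p₂ = 0 ∧ η p₁ = 0 ∧ η p₂ = 1 ∧
      ∀ q ∈ W, q = (ξ q) • p₁ + (η q) • p₂ := by
  let b : Basis (Fin 2) K W := finBasisOfFinrankEq K W hW
  obtain ⟨ξ, hξ⟩ := LinearMap.exists_extend (b.coord 0)
  obtain ⟨η, hη⟩ := LinearMap.exists_extend (b.coord 1)
  have hξ' : ∀ w : W, ξ w = b.coord 0 w := fun w => by
    rw [← hξ]; rfl
  have hη' : ∀ w : W, η w = b.coord 1 w := fun w => by
    rw [← hη]; rfl
  refine ⟨b 0, b 1, ξ, η, (b 0).2, (b 1).2, ?_, ?_, ?_, ?_, ?_⟩
  · rw [hξ']; simp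
  · rw [hξ']; simp
  · rw [hη']; simp
  · rw [hη']; simp
  · intro q hq
    have h1 := b.sum_repr ⟨q, hq⟩
    rw [Fin.sum_univ_two] at h1
    have h2 := congrArg (Subtype.val) h1
    have e1 : ξ q = b.coord 0 ⟨q, hq⟩ := hξ' ⟨q, hq⟩
    have e2 : η q = b.coord 1 ⟨q, hq⟩ := hη' ⟨q, hq⟩
    rw [e1, e2]
    exact h2.symm

/-- `q ∧ A(q) = 0` on a plane implies `A(q) = q ∧ R` -/
lemma exists_R (W : Submodule K (Fin N → K)) (hW : finrank K W = 2)
    (A : (Fin N → K) → Fin N → Fin N → K)
    (hadd : ∀ p q a b, A (p + q) a b = A p a b + A q a b)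
    (hsmul : ∀ (c : K) p a b, A (c • p) a b = c * A p a b)
    (hskew : ∀ p a b, A p a b = - A p b a)
    (hw : ∀ q ∈ W, ∀ a b c, q a * A q b c + q b * A q c a + q c * A q a b = 0) :
    ∃ R : Fin N → K, ∀ q ∈ W, ∀ a b, A q a b = q a * R b - q b * R a := by
  obtain ⟨p₁, p₂, ξ, η, h1, h2, x1, x2, y1, y2, hq⟩ := exists_dual_pair W hW
  -- contraction of p₁ ∧ A(p₁) with ξ
  have key : ∀ (p : Fin N → K) (ζ : (Fin N → K) →ₗ[K] K), p ∈ W → ζ p = 1 →
      ∀ b c, A p b c = p b * (-ζ (A p c)) - p c * (-ζ (A p b)) := by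
    intro p ζ hp hζ b c
    have e : A p b c • p + p b • (A p c) + (-(p c)) • (A p b) = 0 := by
      ext a
      have := hw p hp a b c
      simp only [Pi.add_apply, Pi.smul_apply, smul_eq_mul, Pi.zero_apply]
      rw [hskew p a b] at this
      linear_combination this
    have e' := congrArg ζ e
    simp only [map_add, map_smul, smul_eq_mul, map_zero, hζ] at e'
    linear_combination e'
  have k1 := key p₁ ξ h1 x1
  have k2 := key p₂ η h2 y2
  set R : Fin N → K := fun b => -ξ (A p₁ b) with hR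
  set R' : Fin N → K := fun b => -η (A p₂ b) with hR'
  have k1' : ∀ b c, A p₁ b c = p₁ b * R c - p₁ c * R b := k1
  have k2' : ∀ b c, A p₂ b c = p₂ b * R' c - p₂ c * R' b := k2
  -- polarization
  have pol : ∀ a b c, p₁ a * A p₂ b c + p₁ b * A p₂ c a + p₁ c * A p₂ a b
      + (p₂ a * A p₁ b c + p₂ b * A p₁ c a + p₂ c * A p₁ a b) = 0 := by
    intro a b c
    have e1 := hw (p₁ + p₂) (Submodule.add_mem _ h1 h2) a b c
    have e2 := hw p₁ h1 a b c
    have e3 := hw p₂ h2 a b c
    simp only [hadd, Pi.add_apply] at e1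
    linear_combination e1 - e2 - e3
  set D : Fin N → K := R' - R with hD
  have hDa : ∀ a, D a = R' a - R a := fun a => rfl
  have pol2 : ∀ a b c, p₁ a * (p₂ b * D c - p₂ c * D b) + p₁ b * (p₂ c * D a - p₂ a * D c)
      + p₁ c * (p₂ a * D b - p₂ b * D a) = 0 := by
    intro a b c
    have := pol a b c
    simp only [k1', k2'] at this
    simp only [hDa]
    linear_combination this
  have c1 : ∀ b c, (p₂ b * D c - p₂ c * D b) + (p₁ b * p₂ c - p₁ c * p₂ b) * ξ D = 0 := by
    intro b c
    have e : (p₂ b * D c - p₂ c * D b) • p₁ + (p₁ b * p₂ c - p₁ c * p₂ b) • D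
        + (p₁ c * D b - p₁ b * D c) • p₂ = 0 := by
      ext a
      simp only [Pi.add_apply, Pi.smul_apply, smul_eq_mul, Pi.zero_apply]
      linear_combination pol2 a b c
    have e' := congrArg ξ e
    simp only [map_add, map_smul, smul_eq_mul, map_zero, x1, x2] at e'
    linear_combination e'
  have c2 : ∀ c, D c = p₂ c * η D + p₁ c * ξ D := by
    intro c
    have e : D c • p₂ + (-(p₂ c)) • D + (ξ D * p₂ c) • p₁ + (-(ξ D * p₁ c)) • p₂ = 0 := by
      ext b
      simp only [Pi.add_apply, Pi.smul_apply, smul_eq_mul, Pi.zero_apply]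
      linear_combination c1 b c
    have e' := congrArg η e
    simp only [map_add, map_smul, smul_eq_mul, map_zero, y1, y2] at e'
    linear_combination e'
  refine ⟨R + (ξ D) • p₁, ?_⟩
  intro q hqW a b
  have hA : A q a b = ξ q * A p₁ a b + η q * A p₂ a b := by
    conv_lhs => rw [hq q hqW]
    rw [hadd, hsmul, hsmul]
  have hqa : ∀ a, q a = ξ q * p₁ a + η q * p₂ a := by
    intro a
    have := congrFun (hq q hqW) a
    simpa using this
  have hR'a : ∀ a, R' a = R a + (p₂ a * η D + p₁ a * ξ D) := by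
    intro a
    have := c2 a
    rw [hDa] at this
    linear_combination this
  rw [hA, k1', k2', hqa a, hqa b, hR'a a, hR'a b]
  simp only [Pi.add_apply, Pi.smul_apply, smul_eq_mul]
  ring

/-- uniqueness of `R` -/
lemma R_unique (W : Submodule K (Fin N → K)) (hW : finrank K W = 2) (R R' : Fin N → K)
    (h : ∀ q ∈ W, ∀ a b, q a * R b - q b * R a = q a * R' b - q b * R' a) : R = R' := by
  obtain ⟨p₁, p₂, ξ, η, h1, h2, x1, x2, y1, y2, hq⟩ := exists_dual_pair W hW
  have key : ∀ (p : Fin N → K) (ζ : (Fin N → K) →ₗ[K] K), p ∈ W → ζ p = 1 →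
      R - R' = ζ (R - R') • p := by
    intro p ζ hp hζ
    ext b
    have e : (R b - R' b) • p + (-(p b)) • (R - R') = 0 := by
      ext a
      simp only [Pi.add_apply, Pi.smul_apply, smul_eq_mul, Pi.zero_apply, Pi.sub_apply]
      linear_combination h p hp a b
    have e' := congrArg ζ e
    simp only [map_add, map_smul, smul_eq_mul, map_zero, hζ] at e'
    simp only [Pi.sub_apply, Pi.smul_apply, smul_eq_mul]
    linear_combination e'
  have k1 := key p₁ ξ h1 x1
  have k2 := key p₂ η h2 y2
  have : ξ (R - R') = 0 := by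
    rw [k2, map_smul, x2, smul_zero]
  rw [this, zero_smul] at k1
  exact sub_eq_zero.1 k1

end Wedge

section Glue

variable {K : Type u} [Field K] {U : Type u} [AddCommGroup U] [Module K U] [FiniteDimensional K U]
variable {V : Type} [DecidableEq V] {G : SimpleGraph V} [DecidableRel G.Adj]
  {L : V → Submodule K U}

lemma glue (A B : Submodule K U) (f g : Dual K U) (h : ∀ x ∈ A ⊓ B, f x = g x) :
    ∃ ψ : Dual K U, (∀ x ∈ A, ψ x = f x) ∧ (∀ x ∈ B, ψ x = g x) := by
  have h1 : f - g ∈ (A ⊓ B).dualAnnihilator := by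
    rw [Submodule.mem_dualAnnihilator]
    intro x hx
    rw [LinearMap.sub_apply, h x hx, sub_self]
  rw [Subspace.dualAnnihilator_inf_eq, Submodule.mem_sup] at h1
  obtain ⟨α, hα, β, hβ, hsum⟩ := h1
  rw [Submodule.mem_dualAnnihilator] at hα hβ
  refine ⟨f - α, fun x hx => by rw [LinearMap.sub_apply, hα x hx, sub_zero], fun x hx => ?_⟩
  have : f - α = g + β := by
    rw [sub_eq_iff_eq_add, add_assoc, add_comm β α, hsum]; abel
  rw [this, LinearMap.add_apply, hβ x hx, add_zero]

/-- functionals on the lines which agree at the nodes come from a functional on the space -/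
lemma descent (hC : Config G L) : ∀ (n : ℕ) (S : Finset V), S.card = n → Good G L S →
    ∀ ψ : V → Dual K U, (∀ x ∈ S, ∀ y ∈ S, G.Adj x y → ∀ p ∈ L x ⊓ L y, ψ x p = ψ y p) →
      ∃ Ψ : Dual K U, ∀ v ∈ S, ∀ x ∈ L v, Ψ x = ψ v x := by
  intro n
  induction n with
  | zero =>
    intro S hS _ ψ _
    rw [Finset.card_eq_zero] at hS
    subst hS
    exact ⟨0, fun v hv => absurd hv (Finset.notMem_empty v)⟩
  | succ n ih =>
    intro S hSn hS ψ hψ
    have hne : S.Nonempty := Finset.card_pos.1 (by omega)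
    obtain ⟨v, hv, hk⟩ := hC.degen S hne
    have hS' : {v} ∪ S.erase v = S := by
      rw [← Finset.insert_eq, Finset.insert_erase hv]
    have hd : Disjoint {v} (S.erase v) := by simp
    have hk' : ed G {v} (S.erase v) = ed G {v} S := by
      conv_rhs => rw [← hS']
      rw [ed_union_right G _ hd, ed_self_singleton, zero_add]
    have h2 := finrank_sup_union (K := K) (L := L) {v} (S.erase v)
    rw [hS', Finset.sup_singleton, hC.line v, inf_comm] at h2
    have h3 := node_dim hC v (S.erase v) (Finset.notMem_erase _ _) (by omega)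
    have h4 := ed_split G hd
    rw [hS', ed_self_singleton] at h4
    have h5 := upper hC (S.erase v)
    have h6 := Finset.card_erase_of_mem hv
    have hgood : Good G L (S.erase v) := by unfold Good at *; omega
    have hdim : finrank K (((S.erase v).sup L ⊓ L v : Submodule K U)) = ed G {v} (S.erase v) := by
      unfold Good at *; omega
    obtain ⟨Ψ, hΨ⟩ := ih (S.erase v) (by rw [h6]; omega) hgood ψ
      (fun x hx y hy => hψ x (Finset.mem_of_mem_erase hx) y (Finset.mem_of_mem_erase hy))
    -- agreement on the intersection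
    have hagree : ∀ x ∈ (S.erase v).sup L ⊓ L v, Ψ x = ψ v x := by
      have hker : ∀ b ∈ S.erase v, G.Adj v b → L b ⊓ L v ≤ LinearMap.ker (Ψ - ψ v) := by
        intro b hb hvb x hx
        rw [LinearMap.mem_ker, LinearMap.sub_apply, hΨ b hb x hx.1,
          hψ b (Finset.mem_of_mem_erase hb) v hv hvb.symm x hx, sub_self]
      have hle : ∀ u ∈ S.erase v, L u ⊓ L v ≤ (S.erase v).sup L ⊓ L v := fun u hu =>
        inf_le_inf_right _ (Finset.le_sup hu)
      suffices hsub : (S.erase v).sup L ⊓ L v ≤ LinearMap.ker (Ψ - ψ v) by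
        intro x hx
        have := hsub hx
        rw [LinearMap.mem_ker, LinearMap.sub_apply] at this
        exact sub_eq_zero.1 this
      rcases Nat.lt_or_ge (ed G {v} (S.erase v)) 1 with h0 | h1
      · have : finrank K (((S.erase v).sup L ⊓ L v : Submodule K U)) = 0 := by omega
        rw [Submodule.finrank_eq_zero] at this
        rw [this]; exact bot_le
      rcases Nat.lt_or_ge (ed G {v} (S.erase v)) 2 with h7 | h7
      · obtain ⟨x, hx, y, hy, hxy⟩ := exists_of_ed_pos G h1
        rw [Finset.mem_singleton] at hx; subst hx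
        have heq : L y ⊓ L x = (S.erase x).sup L ⊓ L x := by
          refine Submodule.eq_of_le_of_finrank_le (hle y hy) ?_
          have := finrank_pos_of_ne_bot (hC.meet y x hxy.symm)
          omega
        rw [← heq]
        exact hker y hy hxy
      · have h8 : 1 < (({v} ×ˢ (S.erase v)).filter (fun p => G.Adj p.1 p.2)).card := by
          change 1 < ed G {v} (S.erase v); omega
        rw [Finset.one_lt_card] at h8
        obtain ⟨⟨a, b⟩, hp, ⟨c, d⟩, hq, hne'⟩ := h8
        simp only [Finset.mem_filter, Finset.mem_product, Finset.mem_singleton] at hp hq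
        obtain ⟨⟨ha, hb⟩, hab⟩ := hp
        obtain ⟨⟨hc, hdd⟩, hcd⟩ := hq
        have hbd : b ≠ d := fun h => hne' (by rw [ha, hc, h])
        rw [ha] at hab
        rw [hc] at hcd
        have hinf : (L b ⊓ L v) ⊓ (L d ⊓ L v) = ⊥ := by
          have := hC.noTriple b d v hbd hcd.ne.symm hab.ne.symm
          rw [eq_bot_iff] at this ⊢
          refine le_trans ?_ this
          intro z hz
          exact ⟨⟨hz.1.1, hz.2.1⟩, hz.1.2⟩
        have h9 := Submodule.finrank_sup_add_finrank_inf_eq (L b ⊓ L v) (L d ⊓ L v)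
        rw [hinf, finrank_bot, add_zero] at h9
        have h10 := finrank_pos_of_ne_bot (hC.meet b v hab.symm)
        have h11 := finrank_pos_of_ne_bot (hC.meet d v hcd.symm)
        have heq : (L b ⊓ L v) ⊔ (L d ⊓ L v) = (S.erase v).sup L ⊓ L v := by
          refine Submodule.eq_of_le_of_finrank_le (sup_le (hle b hb) (hle d hdd)) ?_
          omega
        rw [← heq]
        exact sup_le (hker b hb hab) (hker d hdd hcd)
    obtain ⟨Φ, hΦ1, hΦ2⟩ := glue _ _ Ψ (ψ v) hagree
    refine ⟨Φ, fun w hw x hx => ?_⟩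
    by_cases h : w = v
    · rw [h] at hx ⊢; exact hΦ2 x hx
    · have hw' : w ∈ S.erase v := Finset.mem_erase.2 ⟨h, hw⟩
      rw [hΦ1 x ((Finset.le_sup hw' : L w ≤ _) hx), hΨ w hw' x hx]

end Glue

end Q37.GraphCurve
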